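import Pool.Agent.L7h48.SG.Stm

/-! # Project SG: averaging over an open normal subgroup of finite index (AV) -/

set_option autoImplicit false

namespace Pool.Agent.L7h22.SG.Av

open Pool.Agent.L7h48.SG

variable {G : Type} [Group G] [TopologicalSpace G] {V : Type} [AddCommGroup V] [TopologicalSpace V]

lemma act_zero {act : G → V → V} (h : ∀ g v w, act g (v + w) = act g v + act g w) (g : G) :
    act g 0 = 0 := by
  have := h g 0 0
  rw [add_zero] at this
  simpa using this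

/-- the additive map -/
def hom (act : G → V → V) (h : ∀ g v w, act g (v + w) = act g v + act g w) (g : G) : V →+ V where
  toFun := act g
  map_zero' := act_zero h g
  map_add' := h g

/-- the representative of the coset of `a` -/
noncomputable def rep (Q : Subgroup G) (a : G) : G := (QuotientGroup.mk a : G ⧸ Q).out

omit [TopologicalSpace G] in
lemma rep_spec (Q : Subgroup G) (a : G) : a⁻¹ * rep Q a ∈ Q := by
  rw [← QuotientGroup.eq]
  exact (QuotientGroup.out_eq' _).symm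

/-- the retraction -/
noncomputable def ret (Q : Subgroup G) (a : G) : G := a * (rep Q a)⁻¹

omit [TopologicalSpace G] in
lemma ret_mem {Q : Subgroup G} (hn : Q.Normal) (a : G) : ret Q a ∈ Q := by
  have h1 := rep_spec Q a
  have h2 := hn.conj_mem _ (Q.inv_mem h1) a
  have e : a * (a⁻¹ * rep Q a)⁻¹ * a⁻¹ = ret Q a := by unfold ret; group
  rwa [e] at h2

omit [TopologicalSpace G] in
lemma ret_mul {Q : Subgroup G} (hn : Q.Normal) {u : G} (hu : u ∈ Q) (a : G) :
    ret Q (u * a) = u * ret Q a := by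
  have h1 : rep Q (u * a) = rep Q a := by
    unfold rep
    congr 1
    rw [QuotientGroup.eq]
    have h2 := hn.conj_mem _ (Q.inv_mem hu) a⁻¹
    have e : a⁻¹ * u⁻¹ * a⁻¹⁻¹ = (u * a)⁻¹ * a := by group
    rwa [e] at h2
  unfold ret
  rw [h1, mul_assoc]

lemma ret_cont [IsTopologicalGroup G] {Q : Subgroup G} (hQ : IsOpen (Q : Set G)) :
    Continuous (ret Q) := by
  have h1 : IsLocallyConstant (rep Q) := by
    rw [IsLocallyConstant.iff_eventually_eq]
    intro a
    have h2 : IsOpen {x : G | a⁻¹ * x ∈ Q} := hQ.preimage (continuous_const.mul continuous_id)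
    have h3 : a ∈ {x : G | a⁻¹ * x ∈ Q} := by
      show a⁻¹ * a ∈ Q
      rw [inv_mul_cancel]
      exact Q.one_mem
    filter_upwards [h2.mem_nhds h3] with x hx
    unfold rep
    congr 1
    exact (QuotientGroup.eq.2 hx).symm
  exact continuous_id.mul (h1.continuous.inv)

theorem main [IsTopologicalGroup G] [IsTopologicalAddGroup V] {act : G → V → V}
    (hadd : ∀ g v w, act g (v + w) = act g v + act g w) (hone : ∀ v, act 1 v = v)
    (hmul : ∀ g h v, act (g * h) v = act g (act h v))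
    (hcont : Continuous (fun q : G × V => act q.1 q.2))
    {Q : Subgroup G} (hQ : IsOpen (Q : Set G)) (hn : Q.Normal) (hfi : Q.FiniteIndex)
    {z : G → G → V} (hz : Continuous (fun v : G × G => z v.1 v.2))
    (hco : ∀ x y w, act x (z y w) - z (x * y) w + z x (y * w) - z x y = 0)
    (hB : ∃ f : G → V, Continuous f ∧ ∀ x ∈ Q, ∀ y ∈ Q, z x y = f x + act x (f y) - f (x * y)) :
    ∃ F : G → V, Continuous F ∧ ∀ x y, Q.index • z x y = F x + act x (F y) - F (x * y) := by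
  classical
  obtain ⟨f, hf, hfz⟩ := hB
  have hsub : ∀ g v w, act g (v - w) = act g v - act g w := fun g v w =>
    map_sub (hom act hadd g) v w
  set Φ : G → G → G → V := fun a b c => act a (z (a⁻¹ * b) (b⁻¹ * c)) with hΦ
  have hΦg : ∀ g a b c, Φ (g * a) (g * b) (g * c) = act g (Φ a b c) := by
    intro g a b c
    show act (g * a) (z ((g * a)⁻¹ * (g * b)) ((g * b)⁻¹ * (g * c)))
      = act g (act a (z (a⁻¹ * b) (b⁻¹ * c)))
    have e1 : (g * a)⁻¹ * (g * b) = a⁻¹ * b := by group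
    have e2 : (g * b)⁻¹ * (g * c) = b⁻¹ * c := by group
    rw [e1, e2, hmul]
  have hΦc : ∀ a b c d, Φ b c d - Φ a c d + Φ a b d - Φ a b c = 0 := by
    intro a b c d
    have h1 := congrArg (act a) (hco (a⁻¹ * b) (b⁻¹ * c) (c⁻¹ * d))
    rw [act_zero hadd, hsub, hadd, hsub, ← hmul] at h1
    have e1 : a * (a⁻¹ * b) = b := by group
    have e2 : a⁻¹ * b * (b⁻¹ * c) = a⁻¹ * c := by group
    have e3 : b⁻¹ * c * (c⁻¹ * d) = b⁻¹ * d := by group
    rw [e1, e2, e3] at h1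
    exact h1
  set Θ₀ : G → G → V := fun a b => act a (f (a⁻¹ * b)) with hΘ₀
  have hΘ₀g : ∀ g a b, Θ₀ (g * a) (g * b) = act g (Θ₀ a b) := by
    intro g a b
    show act (g * a) (f ((g * a)⁻¹ * (g * b))) = act g (act a (f (a⁻¹ * b)))
    have e1 : (g * a)⁻¹ * (g * b) = a⁻¹ * b := by group
    rw [e1, hmul]
  have hΦQ : ∀ a ∈ Q, ∀ b ∈ Q, ∀ c ∈ Q, Φ a b c = Θ₀ a b + Θ₀ b c - Θ₀ a c := by
    intro a ha b hb c hc
    show act a (z (a⁻¹ * b) (b⁻¹ * c)) = act a (f (a⁻¹ * b)) + act b (f (b⁻¹ * c)) - act a (f (a⁻¹ * c))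
    rw [hfz _ (Q.mul_mem (Q.inv_mem ha) hb) _ (Q.mul_mem (Q.inv_mem hb) hc), hsub, hadd, ← hmul]
    have e1 : a * (a⁻¹ * b) = b := by group
    have e2 : a⁻¹ * b * (b⁻¹ * c) = a⁻¹ * c := by group
    rw [e1, e2]
  set ρ : G → G := ret Q with hρ
  have hρc : Continuous ρ := ret_cont hQ
  have hρm : ∀ a, ρ a ∈ Q := ret_mem hn
  have hρu : ∀ u ∈ Q, ∀ a, ρ (u * a) = u * ρ a := fun u hu a => ret_mul hn hu a
  set Ψ : G → G → V := fun a b => Φ (ρ a) a b - Φ (ρ a) (ρ b) b + Θ₀ (ρ a) (ρ b) with hΨ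
  have key : ∀ a b c, Φ a b c = Ψ a b + Ψ b c - Ψ a c := by
    intro a b c
    have h1 := hΦc (ρ a) a b c
    have h2 := hΦc (ρ a) (ρ b) b c
    have h3 := hΦc (ρ a) (ρ b) (ρ c) c
    have h4 := hΦQ (ρ a) (hρm a) (ρ b) (hρm b) (ρ c) (hρm c)
    simp only [hΨ]
    have h5 : Φ a b c = Φ (ρ a) b c - Φ (ρ a) a c + Φ (ρ a) a b := by
      rw [← sub_eq_zero, ← h1]; abel
    have h6 : Φ (ρ b) b c = Φ (ρ a) b c - Φ (ρ a) (ρ b) c + Φ (ρ a) (ρ b) b := by
      rw [← sub_eq_zero, ← h2]; abel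
    have h7 : Φ (ρ b) (ρ c) c = Φ (ρ a) (ρ c) c - Φ (ρ a) (ρ b) c + Φ (ρ a) (ρ b) (ρ c) := by
      rw [← sub_eq_zero, ← h3]; abel
    rw [h5, h6, h7, h4]
    abel
  have hΨu : ∀ u ∈ Q, ∀ a b, Ψ (u * a) (u * b) = act u (Ψ a b) := by
    intro u hu a b
    simp only [hΨ]
    rw [hρu u hu, hρu u hu, hΦg, hΦg, hΘ₀g, hadd, hsub]
  letI : Fintype (G ⧸ Q) := Subgroup.fintypeQuotientOfFiniteIndex
  set Θ : G → G → V := fun a b => ∑ t : G ⧸ Q, act t.out (Ψ (t.out⁻¹ * a) (t.out⁻¹ * b)) with hΘ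
  have hΘg : ∀ g a b, Θ (g * a) (g * b) = act g (Θ a b) := by
    intro g a b
    have h1 : ∀ t : G ⧸ Q, act t.out (Ψ (t.out⁻¹ * (g * a)) (t.out⁻¹ * (g * b)))
        = act g (act (g⁻¹ • t).out (Ψ ((g⁻¹ • t).out⁻¹ * a) ((g⁻¹ • t).out⁻¹ * b))) := by
      intro t
      set s := (g⁻¹ • t).out with hs
      have hq : t.out⁻¹ * g * s ∈ Q := by
        have h2 : ((g⁻¹ * t.out : G) : G ⧸ Q) = ((s : G) : G ⧸ Q) := by
          rw [hs, QuotientGroup.out_eq']
          conv_rhs => rw [← QuotientGroup.out_eq' t]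
          rfl
        rw [QuotientGroup.eq] at h2
        have e : (g⁻¹ * t.out)⁻¹ * s = t.out⁻¹ * g * s := by group
        rwa [e] at h2
      have e1 : t.out⁻¹ * (g * a) = (t.out⁻¹ * g * s) * (s⁻¹ * a) := by group
      have e2 : t.out⁻¹ * (g * b) = (t.out⁻¹ * g * s) * (s⁻¹ * b) := by group
      rw [e1, e2, hΨu _ hq, ← hmul, ← hmul]
      congr 1
      group
    show ∑ t : G ⧸ Q, act t.out (Ψ (t.out⁻¹ * (g * a)) (t.out⁻¹ * (g * b))) = act g (Θ a b)
    rw [Finset.sum_congr rfl fun t _ => h1 t]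
    have h3 : act g (Θ a b) = ∑ t : G ⧸ Q, act g (act t.out (Ψ (t.out⁻¹ * a) (t.out⁻¹ * b))) :=
      map_sum (hom act hadd g) _ _
    rw [h3]
    exact Equiv.sum_comp (MulAction.toPerm g⁻¹)
      (fun t : G ⧸ Q => act g (act t.out (Ψ (t.out⁻¹ * a) (t.out⁻¹ * b))))
  have hΘd : ∀ a b c, Q.index • Φ a b c = Θ a b + Θ b c - Θ a c := by
    intro a b c
    have h1 : ∀ t : G ⧸ Q, Φ a b c = act t.out (Ψ (t.out⁻¹ * a) (t.out⁻¹ * b))
        + act t.out (Ψ (t.out⁻¹ * b) (t.out⁻¹ * c)) - act t.out (Ψ (t.out⁻¹ * a) (t.out⁻¹ * c)) := by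
      intro t
      rw [← hadd, ← hsub, ← key, ← hΦg]
      congr 1 <;> group
    have h2 : ∑ _t : G ⧸ Q, Φ a b c = Q.index • Φ a b c := by
      rw [Finset.sum_const, Finset.card_univ, Subgroup.index_eq_card, Nat.card_eq_fintype_card]
    rw [← h2, Finset.sum_congr rfl fun t _ => h1 t, Finset.sum_sub_distrib, Finset.sum_add_distrib]
  refine ⟨fun g => Θ 1 g, ?_, fun x y => ?_⟩
  · have hΦcont : ∀ (α β γ : G → G), Continuous α → Continuous β → Continuous γ →
        Continuous (fun g => Φ (α g) (β g) (γ g)) := by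
      intro α β γ h1 h2 h3
      exact hcont.comp (h1.prodMk (hz.comp ((h1.inv.mul h2).prodMk (h2.inv.mul h3))))
    refine continuous_finset_sum _ fun t _ => ?_
    refine hcont.comp (continuous_const.prodMk ?_)
    have c1 : Continuous (fun g : G => t.out⁻¹ * g) := continuous_const.mul continuous_id
    refine ((hΦcont _ _ _ continuous_const continuous_const c1).sub
      (hΦcont _ _ _ continuous_const (hρc.comp c1) c1)).add ?_
    exact hcont.comp (continuous_const.prodMk (hf.comp (continuous_const.mul (hρc.comp c1))))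
  · have h1 := hΘd 1 x (x * y)
    have e1 : Φ 1 x (x * y) = z x y := by
      show act 1 (z (1⁻¹ * x) (x⁻¹ * (x * y))) = z x y
      rw [hone]
      congr 1 <;> group
    have e2 := hΘg x 1 y
    rw [mul_one] at e2
    rw [e1, e2] at h1
    exact h1

/-- **[AV]** -/
theorem s_AV : S_AV := by
  intro G _ _ _ V _ _ _ act h1 h2 h3 h4 Q hQ hn hfi z hz hco hB
  exact main h1 h2 h3 h4 hQ hn hfi hz hco hB

end Pool.Agent.L7h22.SG.Av
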