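import Pool.Agent.L7h48.SG.Stm

/-!
# Project SG, part B (first half): cocycles with values in `ℤ_p(χ)`, `dim H² (𝔽_p) ≤ 1`

Port of `Pool.Agent.K7.H57.PS.B1` (by another member of the team) from `2` to `p`.
-/

set_option autoImplicit false

namespace Pool.Agent.L7h22.SG.B

open Pool.Agent.L7h48.SG Finset Filter Topology

variable {p : ℕ} [Fact p.Prime]

section pad

lemma dvd_of_toZMod {x : ℤ_[p]} (h : PadicInt.toZMod x = 0) : ∃ y, x = (p : ℤ_[p]) * y := by
  have h1 : x ∈ RingHom.ker (PadicInt.toZMod : ℤ_[p] →+* ZMod p) := h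
  rw [PadicInt.ker_toZMod, PadicInt.maximalIdeal_eq_span_p, Ideal.mem_span_singleton] at h1
  exact h1

lemma toZMod_p : PadicInt.toZMod (p : ℤ_[p]) = 0 := by
  rw [map_natCast]; simp

lemma pz_ne : (p : ℤ_[p]) ≠ 0 := by
  have := (Fact.out : p.Prime).ne_zero
  exact_mod_cast this

lemma pq_ne : (p : ℚ_[p]) ≠ 0 := by
  have := (Fact.out : p.Prime).ne_zero
  exact_mod_cast this

lemma norm_pow_le (i : ℕ) (x : ℤ_[p]) : ‖(p : ℤ_[p]) ^ i * x‖ ≤ (1 / 2 : ℝ) ^ i := by
  rw [norm_mul, norm_pow, PadicInt.norm_p]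
  have h1 : (p : ℝ)⁻¹ ≤ 1 / 2 := by
    rw [one_div]
    apply inv_anti₀ (by norm_num)
    exact_mod_cast (Fact.out : p.Prime).two_le
  have h2 : (0 : ℝ) ≤ (p : ℝ)⁻¹ := by positivity
  calc (p : ℝ)⁻¹ ^ i * ‖x‖ ≤ (p : ℝ)⁻¹ ^ i * 1 :=
        mul_le_mul_of_nonneg_left (PadicInt.norm_le_one x) (by positivity)
    _ = (p : ℝ)⁻¹ ^ i := mul_one _
    _ ≤ (1 / 2 : ℝ) ^ i := pow_le_pow_left₀ h2 h1 i

lemma summable_geo : Summable (fun i : ℕ => (1 / 2 : ℝ) ^ i) := summable_geometric_two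

lemma summable_p (e : ℕ → ℤ_[p]) : Summable (fun i => (p : ℤ_[p]) ^ i * e i) :=
  Summable.of_norm_bounded summable_geo fun i => norm_pow_le i (e i)

lemma tendsto_p (e : ℕ → ℤ_[p]) : Tendsto (fun i => (p : ℤ_[p]) ^ i * e i) atTop (𝓝 0) :=
  (summable_p e).tendsto_atTop_zero

/-- the reduction modulo `p` is locally constant -/
lemma lc_toZMod : IsLocallyConstant (PadicInt.toZMod : ℤ_[p] → ZMod p) := by
  rw [IsLocallyConstant.iff_eventually_eq]
  intro x
  filter_upwards [Metric.ball_mem_nhds x one_pos] with y hy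
  have h1 : y - x ∈ IsLocalRing.maximalIdeal ℤ_[p] := by
    rw [IsLocalRing.mem_maximalIdeal, PadicInt.mem_nonunits]
    rwa [← dist_eq_norm, ← Metric.mem_ball]
  rw [← PadicInt.ker_toZMod, RingHom.mem_ker, map_sub, sub_eq_zero] at h1
  exact h1

/-- dividing a continuous function by `p` -/
lemma cont_div {X : Type} [TopologicalSpace X] {g : X → ℤ_[p]}
    (hg : Continuous fun x => (p : ℤ_[p]) * g x) : Continuous g := by
  have h1 : Continuous fun x => (((p : ℤ_[p]) * g x : ℤ_[p]) : ℚ_[p]) :=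
    continuous_subtype_val.comp hg
  have h2 : Continuous fun x => ((g x : ℤ_[p]) : ℚ_[p]) := by
    have h3 : (fun x => ((g x : ℤ_[p]) : ℚ_[p])) =
        fun x => (p : ℚ_[p])⁻¹ * (((p : ℤ_[p]) * g x : ℤ_[p]) : ℚ_[p]) := by
      funext x
      rw [PadicInt.coe_mul]
      have h4 : ((p : ℤ_[p]) : ℚ_[p]) = p := PadicInt.coe_natCast p
      rw [h4, ← mul_assoc, inv_mul_cancel₀ pq_ne, one_mul]
    rw [h3]
    exact continuous_const.mul h1
  exact continuous_induced_rng.2 h2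

end pad

variable {G : Type} [Group G] [TopologicalSpace G]

/-- the reduction modulo `p` -/
noncomputable def rp (z : G → G → ℤ_[p]) : G → G → ZMod p := fun x y => PadicInt.toZMod (z x y)

/-- the coboundary of a function -/
noncomputable def bd (χ f : G → ℤ_[p]) (x y : G) : ℤ_[p] := f x + χ x * f y - f (x * y)

lemma bd_mem_Zp {χ : G → ℤ_[p]} [ContinuousMul G] (hχ : IsChar p χ) {f : G → ℤ_[p]}
    (hf : Continuous f) : bd χ f ∈ Zp p χ := by
  refine ⟨?_, ?_⟩
  · have h1 := hχ.cont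
    unfold bd
    fun_prop
  · intro x y w
    simp only [bd, hχ.mul, mul_assoc]
    ring

lemma Zp_sub {χ : G → ℤ_[p]} {z z' : G → G → ℤ_[p]} (a : ℤ_[p]) (hz : z ∈ Zp p χ)
    (hz' : z' ∈ Zp p χ) : (fun x y => z x y - a * z' x y) ∈ Zp p χ := by
  refine ⟨hz.1.sub (continuous_const.mul hz'.1), fun x y w => ?_⟩
  have h1 := hz.2 x y w
  have h2 := hz'.2 x y w
  linear_combination h1 - a * h2

lemma Bp_add {χ : G → ℤ_[p]} {z z' : G → G → ℤ_[p]} (hz : z ∈ Bp p χ) (hz' : z' ∈ Bp p χ) :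
    (fun x y => z x y + z' x y) ∈ Bp p χ := by
  obtain ⟨f, hf, h⟩ := hz
  obtain ⟨f', hf', h'⟩ := hz'
  refine ⟨fun x => f x + f' x, hf.add hf', fun x y => ?_⟩
  simp only [h, h']
  ring

lemma Bp_smul {χ : G → ℤ_[p]} {z : G → G → ℤ_[p]} (a : ℤ_[p]) (hz : z ∈ Bp p χ) :
    (fun x y => a * z x y) ∈ Bp p χ := by
  obtain ⟨f, hf, h⟩ := hz
  refine ⟨fun x => a * f x, continuous_const.mul hf, fun x y => ?_⟩
  simp only [h]
  ring

/-- clause one -/
lemma rp_mem {χ : G → ℤ_[p]} (h1χ : ∀ x, PadicInt.toZMod (χ x) = 1) {z : G → G → ℤ_[p]}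
    (hz : z ∈ Zp p χ) : IsZ p (⊤ : Subgroup G) (rp z) := by
  refine ⟨lc_toZMod.comp_continuous hz.1, fun x _ y _ w _ => ?_⟩
  have h1 := congrArg (PadicInt.toZMod : ℤ_[p] → ZMod p) (hz.2 x y w)
  simp only [map_sub, map_add, map_mul, map_zero, h1χ, one_mul] at h1
  exact h1

/-- the lift of a function -/
noncomputable def lf (a : ZMod p) : ℤ_[p] := (a.val : ℤ_[p])

lemma toZMod_lf (a : ZMod p) : PadicInt.toZMod (lf a) = a := by
  rw [lf, map_natCast, ZMod.natCast_val, ZMod.cast_id]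

/-- clause two -/
lemma divide {χ : G → ℤ_[p]} [ContinuousMul G] (hχ : IsChar p χ)
    (h1χ : ∀ x, PadicInt.toZMod (χ x) = 1) {z : G → G → ℤ_[p]} (hz : z ∈ Zp p χ)
    (h : IsB p (⊤ : Subgroup G) (rp z)) : ∃ z' ∈ Zp p χ, ∃ f : G → ℤ_[p], Continuous f ∧
        ∀ x y, z x y = p * z' x y + (f x + χ x * f y - f (x * y)) := by
  obtain ⟨a, ha, hb⟩ := h
  have hf : Continuous fun x => lf (a x) := (ha.comp lf).continuous
  have hd : ∀ x y, ∃ w, z x y - bd χ (fun x => lf (a x)) x y = p * w := by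
    intro x y
    apply dvd_of_toZMod
    simp only [bd, map_sub, map_add, map_mul, h1χ, one_mul, toZMod_lf]
    have h1 := hb x (Subgroup.mem_top x) y (Subgroup.mem_top y)
    simp only [rp] at h1
    rw [h1]
    ring
  choose z' hz' using hd
  have hm := Zp_sub 1 hz (bd_mem_Zp hχ hf)
  refine ⟨z', ⟨?_, ?_⟩, fun x => lf (a x), hf, ?_⟩
  · apply cont_div
    have h1 := hm.1
    simp only [one_mul, hz'] at h1
    exact h1
  · intro x y w
    have h1 := hm.2 x y w
    simp only [one_mul, hz'] at h1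
    have h2 : (p : ℤ_[p]) * (χ x * z' y w - z' (x * y) w + z' x (y * w) - z' x y) = 0 := by
      linear_combination h1
    exact (mul_eq_zero.1 h2).resolve_left pz_ne
  · intro x y
    have h1 := hz' x y
    simp only [bd] at h1
    linear_combination h1

/-- the limit of successive approximations -/
lemma lim_mem {χ : G → ℤ_[p]} {z : G → G → ℤ_[p]} (f : ℕ → G → ℤ_[p])
    (hf : ∀ i, Continuous (f i)) (zz : ℕ → G → G → ℤ_[p])
    (h : ∀ N x y, z x y = p ^ N * zz N x y + ∑ i ∈ range N, p ^ i * bd χ (f i) x y) :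
    z ∈ Bp p χ := by
  refine ⟨fun x => ∑' i, p ^ i * f i x, ?_, fun x y => ?_⟩
  · exact continuous_tsum (fun i => continuous_const.mul (hf i)) summable_geo
      fun i x => norm_pow_le i (f i x)
  · have h1 : Tendsto (fun N => ∑ i ∈ range N, (p : ℤ_[p]) ^ i * bd χ (f i) x y) atTop
        (𝓝 ((∑' i, p ^ i * f i x) + χ x * (∑' i, p ^ i * f i y) - ∑' i, p ^ i * f i (x * y))) := by
      have hs : ∀ u : G, Tendsto (fun N => ∑ i ∈ range N, (p : ℤ_[p]) ^ i * f i u) atTop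
          (𝓝 (∑' i, p ^ i * f i u)) := fun u =>
        (summable_p fun i => f i u).hasSum.tendsto_sum_nat
      have h2 := ((hs x).add ((hs y).const_mul (χ x))).sub (hs (x * y))
      refine h2.congr fun N => ?_
      rw [mul_sum, ← sum_add_distrib, ← sum_sub_distrib]
      refine sum_congr rfl fun i _ => ?_
      rw [bd]
      ring
    have h3 : Tendsto (fun N => (p : ℤ_[p]) ^ N * zz N x y +
        ∑ i ∈ range N, (p : ℤ_[p]) ^ i * bd χ (f i) x y) atTop
        (𝓝 (0 + ((∑' i, p ^ i * f i x) + χ x * (∑' i, p ^ i * f i y) -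
          ∑' i, p ^ i * f i (x * y)))) := (tendsto_p fun N => zz N x y).add h1
    rw [zero_add] at h3
    refine tendsto_nhds_unique ?_ h3
    refine tendsto_const_nhds.congr fun N => h N x y

/-- clause three: generation -/
theorem gen {χ : G → ℤ_[p]} [ContinuousMul G] (hχ : IsChar p χ)
    (h1χ : ∀ x, PadicInt.toZMod (χ x) = 1)
    (hdim : ∀ e₁ e₂, IsZ p (⊤ : Subgroup G) e₁ → IsZ p (⊤ : Subgroup G) e₂ →
      ¬ IsB p (⊤ : Subgroup G) e₁ →
      ∃ a : ZMod p, IsB p (⊤ : Subgroup G) (fun x y => e₂ x y - a * e₁ x y))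
    {z₀ : G → G → ℤ_[p]} (hz₀ : z₀ ∈ Zp p χ) (h₀ : ¬ IsB p (⊤ : Subgroup G) (rp z₀))
    {z : G → G → ℤ_[p]} (hz : z ∈ Zp p χ) :
    ∃ a : ℤ_[p], (fun x y => z x y - a * z₀ x y) ∈ Bp p χ := by
  have step : ∀ z : {z : G → G → ℤ_[p] // z ∈ Zp p χ},
      ∃ (z' : {z : G → G → ℤ_[p] // z ∈ Zp p χ})
      (ε : ℤ_[p]) (f : G → ℤ_[p]), Continuous f ∧
      ∀ x y, z.1 x y = p * z'.1 x y + ε * z₀ x y + bd χ f x y := by
    rintro ⟨z, hz⟩
    obtain ⟨a, ha⟩ := hdim _ _ (rp_mem h1χ hz₀) (rp_mem h1χ hz) h₀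
    have h2 : IsB p (⊤ : Subgroup G) (rp (fun x y => z x y - lf a * z₀ x y)) := by
      have h3 : rp (fun x y => z x y - lf a * z₀ x y) = fun x y => rp z x y - a * rp z₀ x y := by
        funext x y
        simp only [rp, map_sub, map_mul, toZMod_lf]
      rw [h3]
      exact ha
    obtain ⟨z', hz', f, hf, h1⟩ := divide hχ h1χ (Zp_sub (lf a) hz hz₀) h2
    exact ⟨⟨z', hz'⟩, lf a, f, hf, fun x y => by
      have := h1 x y
      simp only [bd]
      linear_combination this⟩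
  choose st ε f hf hst using step
  let s : ℕ → {z : G → G → ℤ_[p] // z ∈ Zp p χ} := fun n => Nat.rec ⟨z, hz⟩ (fun _ w => st w) n
  have hs : ∀ n x y, (s n).1 x y =
      p * (s (n + 1)).1 x y + ε (s n) * z₀ x y + bd χ (f (s n)) x y := fun n x y => hst (s n) x y
  have hN : ∀ N x y, z x y = p ^ N * (s N).1 x y + (∑ i ∈ range N, p ^ i * ε (s i)) * z₀ x y +
      ∑ i ∈ range N, p ^ i * bd χ (f (s i)) x y := by
    intro N
    induction N with
    | zero => intro x y; simp [s]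
    | succ N ih =>
      intro x y
      rw [sum_range_succ, sum_range_succ]
      linear_combination ih x y + p ^ N * hs N x y
  refine ⟨∑' i, p ^ i * ε (s i), ?_⟩
  refine lim_mem (fun i => f (s i)) (fun i => hf (s i))
    (fun N x y => (s N).1 x y - (∑' i, p ^ i * ε (s (i + N))) * z₀ x y) ?_
  intro N x y
  have h1 : ∑' i, (p : ℤ_[p]) ^ i * ε (s i) =
      (∑ i ∈ range N, p ^ i * ε (s i)) + p ^ N * ∑' i, p ^ i * ε (s (i + N)) := by
    rw [← (summable_p fun i => ε (s i)).sum_add_tsum_nat_add N,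
      ← (summable_p fun i => ε (s (i + N))).tsum_mul_left]
    congr 1
    refine tsum_congr fun i => ?_
    rw [pow_add]
    ring
  rw [h1]
  linear_combination hN N x y

/-- clause four: divisibility -/
theorem dvs {χ : G → ℤ_[p]} [ContinuousMul G] (hχ : IsChar p χ)
    (h1χ : ∀ x, PadicInt.toZMod (χ x) = 1) {z : G → G → ℤ_[p]} (hz : z ∈ Zp p χ)
    (hz1 : z ∉ Bp p χ) : ∃ z' ∈ Zp p χ, ¬ IsB p (⊤ : Subgroup G) (rp z') := by
  by_contra hcon
  push Not at hcon
  have step : ∀ u : {z' : G → G → ℤ_[p] // z' ∈ Zp p χ},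
      ∃ (u' : {z' : G → G → ℤ_[p] // z' ∈ Zp p χ}) (f : G → ℤ_[p]), Continuous f ∧
      ∀ x y, u.1 x y = p * u'.1 x y + bd χ f x y := by
    rintro ⟨z', hz'⟩
    obtain ⟨z'', hz'', f, hf, h1⟩ := divide hχ h1χ hz' (hcon z' hz')
    exact ⟨⟨z'', hz''⟩, f, hf, h1⟩
  choose st f hf hst using step
  let s : ℕ → {z' : G → G → ℤ_[p] // z' ∈ Zp p χ} := fun n => Nat.rec ⟨z, hz⟩ (fun _ w => st w) n
  have hs : ∀ n x y, (s n).1 x y =
      p * (s (n + 1)).1 x y + bd χ (f (s n)) x y := fun n x y => hst (s n) x y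
  refine hz1 (lim_mem (fun i => f (s i)) (fun i => hf (s i)) (fun N => (s N).1) ?_)
  intro N
  induction N with
  | zero => intro x y; simp [s]
  | succ N ih =>
    intro x y
    rw [sum_range_succ]
    linear_combination ih x y + p ^ N * hs N x y

end Pool.Agent.L7h22.SG.B
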