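import Pool.Agent.L7h22.SG.B1

/-!
# Project SG, part B (second half): the sign of an involution on `H² (ℚ_p(χ))`

Port of `Pool.Agent.K7.H57.PS.B2` (by another member of the team) from `2` to odd `p`.
-/

set_option autoImplicit false

namespace Pool.Agent.L7h22.SG.B

open Pool.Agent.L7h48.SG Finset Filter Topology

variable {p : ℕ} [Fact p.Prime] {G : Type} [Group G] [TopologicalSpace G]

lemma Bp_Bq {χ : G → ℤ_[p]} {z : G → G → ℤ_[p]} (h : z ∈ Bp p χ) :
    (fun x y => ((z x y : ℤ_[p]) : ℚ_[p])) ∈ Bq p χ := by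
  obtain ⟨f, hf, h⟩ := h
  refine ⟨fun x => ((f x : ℤ_[p]) : ℚ_[p]), continuous_subtype_val.comp hf, fun x y => ?_⟩
  simp only [h]
  push_cast
  rfl

lemma Bq_add {χ : G → ℤ_[p]} {z z' : G → G → ℚ_[p]} (hz : z ∈ Bq p χ) (hz' : z' ∈ Bq p χ) :
    (fun x y => z x y + z' x y) ∈ Bq p χ := by
  obtain ⟨f, hf, h⟩ := hz
  obtain ⟨f', hf', h'⟩ := hz'
  refine ⟨fun x => f x + f' x, hf.add hf', fun x y => ?_⟩
  simp only [h, h']
  ring

lemma Bq_smul {χ : G → ℤ_[p]} {z : G → G → ℚ_[p]} (a : ℚ_[p]) (hz : z ∈ Bq p χ) :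
    (fun x y => a * z x y) ∈ Bq p χ := by
  obtain ⟨f, hf, h⟩ := hz
  refine ⟨fun x => a * f x, continuous_const.mul hf, fun x y => ?_⟩
  simp only [h]
  ring

lemma Bq_congr {χ : G → ℤ_[p]} {z z' : G → G → ℚ_[p]} (hz : z ∈ Bq p χ)
    (h : ∀ x y, z' x y = z x y) : z' ∈ Bq p χ := by
  obtain ⟨f, hf, h'⟩ := hz
  exact ⟨f, hf, fun x y => by rw [h, h']⟩

lemma two_ne (hp : p ≠ 2) : (2 : ZMod p) ≠ 0 := by
  intro h
  have h1 : ((2 : ℕ) : ZMod p) = 0 := by exact_mod_cast h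
  rw [ZMod.natCast_eq_zero_iff] at h1
  exact hp ((Nat.prime_dvd_prime_iff_eq Fact.out Nat.prime_two).1 h1)

/-- the contradiction -/
lemma no_minus (hp : p ≠ 2) {χ : G → ℤ_[p]}
    (h1χ : ∀ x, PadicInt.toZMod (χ x) = 1)
    (hdim : ∀ e₁ e₂, IsZ p (⊤ : Subgroup G) e₁ → IsZ p (⊤ : Subgroup G) e₂ →
      ¬ IsB p (⊤ : Subgroup G) e₁ →
      ∃ a : ZMod p, IsB p (⊤ : Subgroup G) (fun x y => e₂ x y - a * e₁ x y))
    {c : G → G} (hc : Continuous c) (hcm : ∀ x y, c (x * y) = c x * c y)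
    (hw : ∃ w, IsZ p (⊤ : Subgroup G) w ∧ ¬ IsB p (⊤ : Subgroup G) w ∧
      IsB p (⊤ : Subgroup G) (fun x y => w (c x) (c y) - w x y)) {z₀ : G → G → ℤ_[p]}
    (hz₀ : z₀ ∈ Zp p χ) (h₀ : ¬ IsB p (⊤ : Subgroup G) (rp z₀))
    (hm : (fun x y => z₀ (c x) (c y) + z₀ x y) ∈ Bp p χ) : False := by
  obtain ⟨w, hw1, hw2, b, hb, hb'⟩ := hw
  obtain ⟨f, hf, hf'⟩ := hm
  obtain ⟨a, A, hA, hA'⟩ := hdim _ _ (rp_mem h1χ hz₀) hw1 h₀
  have ha : a ≠ 0 := by
    rintro rfl
    exact hw2 ⟨A, hA, fun x hx y hy => by rw [← hA' x hx y hy]; ring⟩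
  apply h₀
  have h2 := two_ne hp
  -- `2 a z₀ = b - (A ∘ c) + A - a f` up to sign
  refine ⟨fun x => (2 * a)⁻¹ * (A (c x) - A x - b x + a * PadicInt.toZMod (f x)), ?_, ?_⟩
  · have e1 : IsLocallyConstant (fun x => A (c x)) := hA.comp_continuous hc
    have e2 : IsLocallyConstant (fun x => PadicInt.toZMod (f x)) := lc_toZMod.comp_continuous hf
    have e3 : IsLocallyConstant (fun x => A (c x) - A x - b x + a * PadicInt.toZMod (f x)) :=
      ((e1.sub hA).sub hb).add ((IsLocallyConstant.const a).mul e2)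
    exact (IsLocallyConstant.const _).mul e3
  · intro x hx y hy
    have e1 := hA' x hx y hy
    have e2 := hA' (c x) (Subgroup.mem_top _) (c y) (Subgroup.mem_top _)
    have e3 := hb' x hx y hy
    have e4 := congrArg (PadicInt.toZMod : ℤ_[p] → ZMod p) (hf' x y)
    simp only [map_sub, map_add, map_mul, h1χ, one_mul] at e4
    simp only [← hcm] at e2
    have e5 : (2 * a) * rp z₀ x y = (A (c x) - A x - b x + a * PadicInt.toZMod (f x)) +
        (A (c y) - A y - b y + a * PadicInt.toZMod (f y)) -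
        (A (c (x * y)) - A (x * y) - b (x * y) + a * PadicInt.toZMod (f (x * y))) := by
      simp only [rp] at e1 e2 ⊢
      linear_combination a * e4 + e2 - e1 - e3
    have h3 : (2 * a) ≠ 0 := mul_ne_zero h2 ha
    calc rp z₀ x y = (2 * a)⁻¹ * ((2 * a) * rp z₀ x y) := by rw [inv_mul_cancel_left₀ h3]
      _ = _ := by rw [e5]; ring

theorem s_B : S_B := by
  intro p _ hp G _ _ _ _ χ hχ h1χ hdim _ c hc hcm hcc hcχ hw
  have hcZ : ∀ z ∈ Zp p χ, (fun x y => z (c x) (c y)) ∈ Zp p χ := by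
    intro z hz
    refine ⟨hz.1.comp ((hc.comp continuous_fst).prodMk (hc.comp continuous_snd)), fun x y v => ?_⟩
    have h1 := hz.2 (c x) (c y) (c v)
    simpa only [← hcm, hcχ] using h1
  by_cases hall : ∀ z ∈ Zp p χ, z ∈ Bp p χ
  · refine ⟨⟨0, ⟨continuous_const, fun x y w => by simp⟩, fun z hz => ⟨0, ?_⟩⟩, fun z hz => ?_⟩
    · exact Bq_congr (Bp_Bq (hall z hz)) fun x y => by simp
    · refine Bq_congr (Bq_add (Bp_Bq (hall _ (hcZ z hz))) (Bq_smul (-1) (Bp_Bq (hall z hz)))) ?_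
      intro x y
      ring
  · push Not at hall
    obtain ⟨z1, hz1, hz1'⟩ := hall
    obtain ⟨z₀, hz₀, h₀⟩ := dvs hχ h1χ hz1 hz1'
    have c3 := fun z (hz : z ∈ Zp p χ) => gen hχ h1χ hdim hz₀ h₀ hz
    have key : (fun x y => ((z₀ (c x) (c y) : ℤ_[p]) : ℚ_[p]) - (z₀ x y : ℤ_[p])) ∈ Bq p χ := by
      obtain ⟨l, hl⟩ := c3 _ (hcZ z₀ hz₀)
      obtain ⟨f, hf, hf'⟩ := hl
      -- `(1 - l ^ 2) z₀` is a coboundary
      have h2 : ∀ x y, (1 - l ^ 2) * z₀ x y =
          (f (c x) + l * f x) + χ x * (f (c y) + l * f y) - (f (c (x * y)) + l * f (x * y)) := by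
        intro x y
        have e1 := hf' x y
        have e2 := hf' (c x) (c y)
        simp only [hcc, ← hcm, hcχ] at e1 e2
        linear_combination e2 + l * e1
      by_cases hl1 : l = 1
      · have h3 : (fun x y => z₀ (c x) (c y) - z₀ x y) ∈ Bp p χ :=
          ⟨f, hf, fun x y => by rw [← hf' x y, hl1]; ring⟩
        refine Bq_congr (Bp_Bq h3) fun x y => ?_
        push_cast
        rfl
      by_cases hl2 : l = -1
      · exfalso
        refine no_minus hp h1χ hdim hc hcm hw hz₀ h₀ ⟨f, hf, fun x y => ?_⟩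
        rw [← hf' x y, hl2]
        ring
      have h3 : (1 - l ^ 2) ≠ 0 := by
        intro h
        have : (l - 1) * (l + 1) = 0 := by linear_combination -h
        rcases mul_eq_zero.1 this with h | h
        · exact hl1 (by linear_combination h)
        · exact hl2 (by linear_combination h)
      have h4 : (((1 - l ^ 2 : ℤ_[p])) : ℚ_[p]) ≠ 0 := by
        intro h
        exact h3 (PadicInt.coe_eq_zero.1 h)
      have h5 : (fun x y => (1 - l ^ 2) * z₀ x y) ∈ Bp p χ :=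
        ⟨fun x => f (c x) + l * f x, (hf.comp hc).add (continuous_const.mul hf), h2⟩
      have h6 : (fun x y => ((z₀ x y : ℤ_[p]) : ℚ_[p])) ∈ Bq p χ := by
        refine Bq_congr (Bq_smul (((1 - l ^ 2 : ℤ_[p])) : ℚ_[p])⁻¹ (Bp_Bq h5)) fun x y => ?_
        rw [PadicInt.coe_mul, ← mul_assoc, inv_mul_cancel₀ h4, one_mul]
      have h7 : (fun x y => z₀ (c x) (c y) - l * z₀ x y) ∈ Bp p χ := ⟨f, hf, hf'⟩
      refine Bq_congr (Bq_add (Bp_Bq h7) (Bq_smul ((l : ℚ_[p]) - 1) h6)) fun x y => ?_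
      push_cast
      ring
    refine ⟨⟨z₀, hz₀, fun z hz => ?_⟩, fun z hz => ?_⟩
    · obtain ⟨a, ha⟩ := c3 z hz
      refine ⟨a, Bq_congr (Bp_Bq ha) fun x y => ?_⟩
      push_cast
      rfl
    · obtain ⟨a, f, hf, hf'⟩ := c3 z hz
      have h1 : (fun x y => bd χ (fun x => f (c x)) x y - bd χ f x y) ∈ Bp p χ :=
        ⟨fun x => f (c x) - f x, (hf.comp hc).sub hf, fun x y => by simp only [bd]; ring⟩
      refine Bq_congr (Bq_add (Bq_smul (a : ℚ_[p]) key) (Bp_Bq h1)) fun x y => ?_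
      have e1 := hf' x y
      have e2 := hf' (c x) (c y)
      simp only [← hcm, hcχ] at e1 e2
      have e3 : z (c x) (c y) - z x y = a * (z₀ (c x) (c y) - z₀ x y) +
          (bd χ (fun x => f (c x)) x y - bd χ f x y) := by
        simp only [bd]
        linear_combination e2 - e1
      have e4 := congrArg (fun t : ℤ_[p] => (t : ℚ_[p])) e3
      simp only [PadicInt.coe_sub, PadicInt.coe_add, PadicInt.coe_mul] at e4
      rw [e4, PadicInt.coe_sub]

end Pool.Agent.L7h22.SG.B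

theorem Pool.Agent.L7h22.SG.s_B : Pool.Agent.L7h48.SG.S_B := Pool.Agent.L7h22.SG.B.s_B
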