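import Pool.Agent.L7h48.SG.Stm

/-! # Project SG: basic lemmas on the relative homomorphisms `HP p U` -/

set_option autoImplicit false

namespace Pool.Agent.L7h22.SG

open Pool.Agent.L7h48.SG

variable {p : ℕ} [Fact p.Prime] {G : Type} [Group G] [TopologicalSpace G]

lemma HP.lc {U : Subgroup G} {φ : G → ZMod p} (h : φ ∈ HP p U) : IsLocallyConstant φ := h.1

lemma HP.mul {U : Subgroup G} {φ : G → ZMod p} (h : φ ∈ HP p U) {x y : G} (hx : x ∈ U)
    (hy : y ∈ U) : φ (x * y) = φ x + φ y := h.2.1 x hx y hy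

lemma HP.off {U : Subgroup G} {φ : G → ZMod p} (h : φ ∈ HP p U) {x : G} (hx : x ∉ U) :
    φ x = 0 := h.2.2 x hx

lemma HP.one {U : Subgroup G} {φ : G → ZMod p} (h : φ ∈ HP p U) : φ 1 = 0 := by
  have := HP.mul h U.one_mem U.one_mem
  rw [mul_one] at this
  simpa using this

lemma HP.inv {U : Subgroup G} {φ : G → ZMod p} (h : φ ∈ HP p U) {x : G} (hx : x ∈ U) :
    φ x⁻¹ = -φ x := by
  have h1 := HP.mul h hx (U.inv_mem hx)
  rw [mul_inv_cancel, HP.one h] at h1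
  linear_combination -h1

lemma HP.pow {U : Subgroup G} {φ : G → ZMod p} (h : φ ∈ HP p U) {x : G} (hx : x ∈ U) (n : ℕ) :
    φ (x ^ n) = n * φ x := by
  induction n with
  | zero => simp [HP.one h]
  | succ n ih =>
    rw [pow_succ, HP.mul h (U.pow_mem hx n) hx, ih]
    push_cast
    ring

lemma isOpen_ker [IsTopologicalGroup G] {U Q : Subgroup G} (hU : IsOpen (U : Set G))
    {χ : G → ZMod p} (hχ : χ ∈ HP p U) (hQ : IsKer p U Q χ) : IsOpen (Q : Set G) := by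
  have : (Q : Set G) = (U : Set G) ∩ χ ⁻¹' {0} := by
    ext x
    exact hQ x
  rw [this]
  exact hU.inter (hχ.1.isOpen_fiber 0)

open Classical in
/-- extension by zero -/
lemma lc_ite [IsTopologicalGroup G] {U : Subgroup G} (hU : IsOpen (U : Set G)) {Y : Type} [Zero Y]
    {f : G → Y} (hf : IsLocallyConstant f) :
    IsLocallyConstant (fun g => if g ∈ U then f g else 0) := by
  rw [IsLocallyConstant.iff_eventually_eq]
  intro g
  by_cases hg : g ∈ U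
  · filter_upwards [hU.mem_nhds hg, (IsLocallyConstant.iff_eventually_eq f).1 hf g] with x hx h
    have hx' : x ∈ U := hx
    rw [if_pos hx', if_pos hg, h]
  · have hc : IsOpen ((U : Set G)ᶜ) := (Subgroup.isClosed_of_isOpen U hU).isOpen_compl
    filter_upwards [hc.mem_nhds hg] with x hx
    have hx' : x ∉ U := hx
    rw [if_neg hx', if_neg hg]

lemma pow_mem_ker {U Q : Subgroup G} {χ : G → ZMod p} (hχ : χ ∈ HP p U) (hQ : IsKer p U Q χ)
    {σ : G} (hσ : σ ∈ U) : σ ^ p ∈ Q := by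
  rw [hQ]
  exact ⟨U.pow_mem hσ p, by rw [HP.pow hχ hσ, CharP.cast_eq_zero, zero_mul]⟩

omit [TopologicalSpace G] in
lemma ker_le {U Q : Subgroup G} {χ : G → ZMod p} (hQ : IsKer p U Q χ) : Q ≤ U :=
  fun x hx => ((hQ x).1 hx).1

lemma conj_mem_ker {U Q : Subgroup G} {χ : G → ZMod p} (hχ : χ ∈ HP p U) (hQ : IsKer p U Q χ)
    {g u : G} (hg : g ∈ U) (hu : u ∈ Q) : g⁻¹ * u * g ∈ Q := by
  have h1 := (hQ u).1 hu
  rw [hQ]
  refine ⟨U.mul_mem (U.mul_mem (U.inv_mem hg) h1.1) hg, ?_⟩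
  rw [HP.mul hχ (U.mul_mem (U.inv_mem hg) h1.1) hg, HP.mul hχ (U.inv_mem hg) h1.1, HP.inv hχ hg,
    h1.2]
  ring

lemma HP.conj {U : Subgroup G} {φ : G → ZMod p} (h : φ ∈ HP p U) {g u : G} (hg : g ∈ U)
    (hu : u ∈ U) : φ (g⁻¹ * u * g) = φ u := by
  rw [HP.mul h (U.mul_mem (U.inv_mem hg) hu) hg, HP.mul h (U.inv_mem hg) hu, HP.inv h hg]
  ring

/-- if `χ g = n` then `σ^(-n) g ∈ Q` -/
lemma coset_mem {U Q : Subgroup G} {χ : G → ZMod p} (hχ : χ ∈ HP p U) (hQ : IsKer p U Q χ)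
    {σ g : G} (hσ : σ ∈ U) (hσ1 : χ σ = 1) (hg : g ∈ U) {n : ℕ} (hn : (n : ZMod p) = χ g) :
    (σ ^ n)⁻¹ * g ∈ Q := by
  rw [hQ]
  have h1 := U.pow_mem hσ n
  refine ⟨U.mul_mem (U.inv_mem h1) hg, ?_⟩
  rw [HP.mul hχ (U.inv_mem h1) hg, HP.inv hχ h1, HP.pow hχ hσ, hσ1, ← hn]
  ring

end Pool.Agent.L7h22.SG
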