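import Pool.Agent.R425.G.Ix

/-!
# Herbrand quotients of the `n`-th power map

Port of `Pool.Agent.R425.G.Hb` (by another member of the team) from `2` to `n`.
-/

set_option autoImplicit false
set_option linter.all false

namespace Pool.Agent.L7h22.SG.Hb

section mul

variable {G : Type*} [CommGroup G]

/-- the group of the `n`-th powers -/
def Pw (n : ℕ) (G : Type*) [CommGroup G] : Subgroup G := (powMonoidHom n : G →* G).range

theorem mem_pw {n : ℕ} {x : G} : x ∈ Pw n G ↔ ∃ y : G, y ^ n = x := Iff.rfl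

/-- the `n`-th powers of the elements of a subgroup -/
def PwH (n : ℕ) (H : Subgroup G) : Subgroup G := H.map (powMonoidHom n : G →* G)

theorem mem_pwH {n : ℕ} {H : Subgroup G} {x : G} : x ∈ PwH n H ↔ ∃ y ∈ H, y ^ n = x := Iff.rfl

theorem pwH_le (n : ℕ) (H : Subgroup G) : PwH n H ≤ H := by
  rintro x ⟨y, hy, rfl⟩
  exact H.pow_mem hy n

theorem pwH_top (n : ℕ) : PwH n (⊤ : Subgroup G) = Pw n G := by
  unfold PwH Pw
  rw [MonoidHom.range_eq_map]

theorem pwH_le_pw (n : ℕ) (H : Subgroup G) : PwH n H ≤ Pw n G := by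
  rintro x ⟨y, hy, rfl⟩
  exact ⟨y, rfl⟩

/-- the elements killed by `n` -/
def Tor (n : ℕ) (G : Type*) [CommGroup G] : Subgroup G := (powMonoidHom n : G →* G).ker

theorem mem_tor {n : ℕ} {x : G} : x ∈ Tor n G ↔ x ^ n = 1 := Iff.rfl

theorem herbrand1 (n : ℕ) (H : Subgroup G) [H.FiniteIndex] :
    (Pw n G).index = (PwH n H).relIndex H * H.relIndex (H ⊔ Tor n G) := by
  have h1 : (PwH n H).relIndex (Pw n G) * (Pw n G).index = (PwH n H).index :=
    Subgroup.relIndex_mul_index (pwH_le_pw n H)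
  have h2 : (PwH n H).relIndex H * H.index = (PwH n H).index :=
    Subgroup.relIndex_mul_index (pwH_le n H)
  have h3 : (PwH n H).relIndex (Pw n G) = (H ⊔ Tor n G).index := by
    have h := Subgroup.relIndex_map_map (powMonoidHom n : G →* G) H ⊤
    rw [← Subgroup.relIndex_top_right (H ⊔ Tor n G)]
    have e : (⊤ : Subgroup G) ⊔ (powMonoidHom n : G →* G).ker = ⊤ := top_sup_eq _
    rw [e] at h
    rw [← pwH_top]
    exact h
  have h4 : H.relIndex (H ⊔ Tor n G) * (H ⊔ Tor n G).index = H.index :=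
    Subgroup.relIndex_mul_index le_sup_left
  have h5 : (H ⊔ Tor n G).index ≠ 0 := by
    intro h
    rw [h, mul_zero] at h4
    exact Subgroup.FiniteIndex.index_ne_zero h4.symm
  rw [h3] at h1
  rw [← h4] at h2
  apply Nat.eq_of_mul_eq_mul_left (Nat.pos_of_ne_zero h5)
  rw [h1, ← h2]
  ring

/-- the Herbrand quotient does not change, if there is no element of order `n` in `H` -/
theorem herbrand (n : ℕ) (H : Subgroup G) [H.FiniteIndex] (h2 : ∀ x ∈ H, x ^ n = 1 → x = 1) :
    (Pw n G).index = (PwH n H).relIndex H * Nat.card (Tor n G) := by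
  rw [herbrand1 n H, Subgroup.relIndex_sup_left (H := Tor n G) (K := H)]
  congr 1
  have : H ⊓ Tor n G = ⊥ := by
    rw [eq_bot_iff]
    rintro x ⟨hx, hx2⟩
    exact Subgroup.mem_bot.2 (h2 x hx hx2)
  rw [← Subgroup.inf_relIndex_right, this, Subgroup.relIndex_bot_left]

/-- the relative form of the Herbrand quotient -/
theorem herbrand_rel (n : ℕ) {H K : Subgroup G} (hHK : H ≤ K) (hfin : H.relIndex K ≠ 0)
    (h2 : ∀ x ∈ H, x ^ n = 1 → x = 1) :
    (PwH n K).relIndex K = (PwH n H).relIndex H * Nat.card (Tor n K) := by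
  haveI : (H.subgroupOf K).FiniteIndex := ⟨hfin⟩
  have h := herbrand n (H.subgroupOf K) (fun x hx hx2 => by
    apply Subtype.ext
    exact h2 x.1 hx (by
      have := congrArg Subtype.val hx2
      exact this))
  have e1 : Pw n K = (PwH n K).subgroupOf K := by
    ext x
    constructor
    · rintro ⟨y, rfl⟩
      exact ⟨y.1, y.2, rfl⟩
    · rintro ⟨y, hy, hyx⟩
      exact ⟨⟨y, hy⟩, Subtype.ext hyx⟩
  have e2 : PwH n (H.subgroupOf K) = (PwH n H).subgroupOf K := by
    ext x
    constructor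
    · rintro ⟨y, hy, rfl⟩
      exact ⟨y.1, hy, rfl⟩
    · rintro ⟨y, hy, hyx⟩
      exact ⟨⟨y, hHK hy⟩, hy, Subtype.ext hyx⟩
  rw [e1, e2, Subgroup.relIndex_subgroupOf hHK] at h
  exact h

end mul

end Pool.Agent.L7h22.SG.Hb
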