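import Pool.Agent.L7h48.SG.Stm
import Pool.Agent.L7h22.SG.Hb

/-!
# Project SG, [C1]: the classes modulo `p`-th powers of the finite extensions of `ℚ_p`

Port of `Pool.Agent.K7.H35.PS.C1` (by another member of the team) from `2` to odd `p`.
-/

set_option autoImplicit false
set_option linter.unusedSectionVars false

open scoped Classical

namespace Pool.Agent.L7h22.SG.C1

open Pool.Agent.Y715.Nr Pool.Agent.L7h48.SG Pool.Agent.R425.G Pool.Agent.L7h22.SG.Hb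
open Polynomial

variable {p : ℕ} [Fact p.Prime]

/-- the norm of `p` -/
noncomputable def qq (p : ℕ) : ℝ := (p : ℝ)⁻¹

lemma qq_pos : 0 < qq p := by
  have := (Fact.out : p.Prime).pos
  unfold qq
  positivity

lemma qq_le : qq p ≤ 1 / 2 := by
  unfold qq
  rw [one_div]
  apply inv_anti₀ (by norm_num)
  exact_mod_cast (Fact.out : p.Prime).two_le

lemma qq_lt : qq p < 1 := lt_of_le_of_lt qq_le (by norm_num)

lemma n_p : ‖(p : PadicAlgCl p)‖ = qq p := by
  have h := PadicAlgCl.norm_extends p (p : ℚ_[p])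
  have e : (((p : ℕ) : ℚ_[p]) : PadicAlgCl p) = p := by
    show algebraMap ℚ_[p] (PadicAlgCl p) (p : ℚ_[p]) = p
    exact map_natCast _ p
  rw [e] at h
  rw [h, Padic.norm_p]
  rfl

lemma p_ne : (p : PadicAlgCl p) ≠ 0 := by
  rw [← norm_ne_zero_iff, n_p]
  exact qq_pos.ne'

lemma add_le' {x y : PadicAlgCl p} {r : ℝ} (hx : ‖x‖ ≤ r) (hy : ‖y‖ ≤ r) : ‖x + y‖ ≤ r :=
  (PadicAlgCl.isNonarchimedean p x y).trans (max_le hx hy)

lemma sub_le' {x y : PadicAlgCl p} {r : ℝ} (hx : ‖x‖ ≤ r) (hy : ‖y‖ ≤ r) : ‖x - y‖ ≤ r := by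
  rw [sub_eq_add_neg]
  exact add_le' hx (by rwa [norm_neg])

lemma sum_le' {ι : Type} (s : Finset ι) (f : ι → PadicAlgCl p) {r : ℝ} (hr : 0 ≤ r)
    (h : ∀ i ∈ s, ‖f i‖ ≤ r) : ‖∑ i ∈ s, f i‖ ≤ r := by
  induction s using Finset.induction_on with
  | empty => simpa using hr
  | insert a s ha ih =>
    rw [Finset.sum_insert ha]
    exact add_le' (h a (Finset.mem_insert_self _ _))
      (ih fun i hi => h i (Finset.mem_insert_of_mem hi))

lemma norm_one_of {x : PadicAlgCl p} {r : ℝ} (hr : r < 1) (h : ‖x - 1‖ ≤ r) : ‖x‖ = 1 := by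
  apply le_antisymm
  · have e : x = (x - 1) + 1 := by ring
    rw [e]
    exact add_le' (h.trans hr.le) (by rw [norm_one])
  · by_contra hcon
    rw [not_le] at hcon
    have e : (1 : PadicAlgCl p) = x - (x - 1) := by ring
    have h1 : ‖(1 : PadicAlgCl p)‖ ≤ max ‖x‖ r := by
      rw [e]
      exact sub_le' (le_max_left _ _) (h.trans (le_max_right _ _))
    rw [norm_one] at h1
    exact absurd (max_lt hcon hr) (not_lt.2 h1)

lemma approx {c : ℚ_[p]} (hc : ‖c‖ ≤ 1) : ∃ (n : ℕ) (e : ℚ_[p]), ‖e‖ ≤ 1 ∧ c = n + p * e := by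
  let c' : ℤ_[p] := ⟨c, hc⟩
  have h2 : ‖c' - (c'.zmodRepr : ℤ_[p])‖ < 1 := PadicInt.norm_sub_zmodRepr_lt_one c'
  obtain ⟨e, he⟩ := (PadicInt.norm_lt_one_iff_dvd _).1 h2
  refine ⟨c'.zmodRepr, e, e.2, ?_⟩
  have h3 := congrArg (fun z : ℤ_[p] => (z : ℚ_[p])) he
  simp only [PadicInt.coe_sub, PadicInt.coe_mul, PadicInt.coe_natCast] at h3
  have h4 : (c' : ℚ_[p]) = c := rfl
  rw [h4] at h3
  linear_combination h3

lemma zm {L : IntermediateField ℚ_[p] (PadicAlgCl p)} {x : PadicAlgCl p} (hx : x ∈ L) (k : ℤ) :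
    x ^ k ∈ L := zpow_mem hx k

lemma pm {L : IntermediateField ℚ_[p] (PadicAlgCl p)} {x : PadicAlgCl p} (hx : x ∈ L) (k : ℕ) :
    x ^ k ∈ L := pow_mem hx k

lemma norm_root {ζ : PadicAlgCl p} (h : ζ ^ p = 1) : ‖ζ‖ = 1 := by
  have h1 : ‖ζ‖ ^ p = 1 := by rw [← norm_pow, h, norm_one]
  exact (pow_eq_one_iff_of_nonneg (norm_nonneg _) (Fact.out : p.Prime).ne_zero).1 h1

/-- there is no root of unity of order `p` close to one -/
lemma tors (hp : p ≠ 2) {ζ : PadicAlgCl p} (h : ζ ^ p = 1) (h1 : ‖ζ - 1‖ ≤ qq p) : ζ = 1 := by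
  by_contra hne
  have hpr := (Fact.out : p.Prime)
  have hζ : IsPrimitiveRoot ζ p := IsPrimitiveRoot.iff_orderOf.2 (orderOf_eq_prime h hne)
  obtain ⟨n, rfl⟩ : ∃ n, p = n + 1 := ⟨p - 1, by have := hpr.pos; omega⟩
  have h2 := hζ.prod_one_sub_pow_eq_order
  have h3 : ‖((n : PadicAlgCl (n + 1)) + 1)‖ = qq (n + 1) := by
    have := n_p (p := n + 1)
    push_cast at this
    exact this
  rw [← h2, norm_prod] at h3
  have h4 : ∏ k ∈ Finset.range n, ‖1 - ζ ^ (k + 1)‖ ≤ ∏ _k ∈ Finset.range n, qq (n + 1) := by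
    refine Finset.prod_le_prod (fun _ _ => norm_nonneg _) fun k _ => ?_
    have e : 1 - ζ ^ (k + 1) = (ζ - 1) * (-∑ i ∈ Finset.range (k + 1), ζ ^ i) := by
      have := mul_geom_sum ζ (k + 1)
      linear_combination this
    rw [e, norm_mul, norm_neg]
    have h5 : ‖∑ i ∈ Finset.range (k + 1), ζ ^ i‖ ≤ 1 := by
      refine sum_le' _ _ zero_le_one fun i _ => ?_
      rw [norm_pow, norm_root h, one_pow]
    calc ‖ζ - 1‖ * ‖∑ i ∈ Finset.range (k + 1), ζ ^ i‖ ≤ ‖ζ - 1‖ * 1 :=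
          mul_le_mul_of_nonneg_left h5 (norm_nonneg _)
      _ = ‖ζ - 1‖ := mul_one _
      _ ≤ _ := h1
  rw [h3, Finset.prod_const, Finset.card_range] at h4
  have hn : 2 ≤ n := by
    have := hpr.two_le
    omega
  have h5 : qq (n + 1) ^ n ≤ qq (n + 1) ^ 2 := pow_le_pow_of_le_one qq_pos.le qq_lt.le hn
  have h6 := h4.trans h5
  have h7 := qq_pos (p := n + 1)
  have h8 := qq_lt (p := n + 1)
  nlinarith

variable (L : IntermediateField ℚ_[p] (PadicAlgCl p))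

/-- the integers of `L` -/
def OO : AddSubgroup (PadicAlgCl p) where
  carrier := {x | x ∈ L ∧ ‖x‖ ≤ 1}
  add_mem' := fun {x y} hx hy => ⟨L.add_mem hx.1 hy.1, add_le' hx.2 hy.2⟩
  zero_mem' := ⟨L.zero_mem, by rw [norm_zero]; exact zero_le_one⟩
  neg_mem' := fun {x} hx => ⟨L.neg_mem hx.1, by rw [norm_neg]; exact hx.2⟩

lemma mem_OO {x : PadicAlgCl p} : x ∈ OO L ↔ x ∈ L ∧ ‖x‖ ≤ 1 := Iff.rfl

lemma pL : (p : PadicAlgCl p) ∈ L := L.natCast_mem p

lemma OO_idx [FiniteDimensional ℚ_[p] L] : (Mul (OO L) p).index ≠ 0 ∧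
    (Mul (OO L) p).index ≤ p ^ Module.finrank ℚ_[p] L := by
  apply mul_idx
  intro x
  have hdep : ¬ LinearIndependent ℚ_[p]
      (fun i => (⟨(x i : PadicAlgCl p), (x i).2.1⟩ : L)) := by
    intro h
    have := h.fintype_card_le_finrank
    simp at this
  rw [Fintype.not_linearIndependent_iff] at hdep
  obtain ⟨g, hg, i0, hi0⟩ := hdep
  obtain ⟨j, hj⟩ := Finite.exists_max (fun i => ‖g i‖)
  have gj0 : g j ≠ 0 := by
    intro h
    have h1 := hj i0
    rw [h, norm_zero] at h1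
    exact hi0 (norm_le_zero_iff.1 h1)
  have hc : ∀ i, ‖g i / g j‖ ≤ 1 := by
    intro i
    rw [norm_div, div_le_one (norm_pos_iff.2 gj0)]
    exact hj i
  choose a e he hae using fun i => approx (hc i)
  have hcast : ∀ c : ℚ_[p], (c : PadicAlgCl p) = algebraMap ℚ_[p] (PadicAlgCl p) c := fun _ => rfl
  have hrel : ∑ i, algebraMap ℚ_[p] (PadicAlgCl p) (g i) * (x i : PadicAlgCl p) = 0 := by
    have h1 := congrArg (fun z : L => (z : PadicAlgCl p)) hg
    have h2 : ((∑ i, g i • (⟨(x i : PadicAlgCl p), (x i).2.1⟩ : L) : L) : PadicAlgCl p) =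
        ∑ i, algebraMap ℚ_[p] (PadicAlgCl p) (g i) * (x i : PadicAlgCl p) := by
      rw [AddSubmonoidClass.coe_finsetSum]
      refine Finset.sum_congr rfl fun i _ => ?_
      rw [IntermediateField.coe_smul, Algebra.smul_def]
    rw [← h2]
    exact h1
  have hrel2 : ∑ i, algebraMap ℚ_[p] (PadicAlgCl p) (g i / g j) * (x i : PadicAlgCl p) = 0 := by
    have h1 : ∑ i, algebraMap ℚ_[p] (PadicAlgCl p) (g i / g j) * (x i : PadicAlgCl p) =
        (algebraMap ℚ_[p] (PadicAlgCl p) (g j))⁻¹ *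
          ∑ i, algebraMap ℚ_[p] (PadicAlgCl p) (g i) * (x i : PadicAlgCl p) := by
      rw [Finset.mul_sum]
      refine Finset.sum_congr rfl fun i _ => ?_
      rw [map_div₀]
      ring
    rw [h1, hrel, mul_zero]
  refine ⟨a, ⟨j, fun h2 => ?_⟩, ?_⟩
  · have h1 := hae j
    rw [div_self gj0] at h1
    obtain ⟨b, hb⟩ := h2
    have h3 : ‖(1 : ℚ_[p])‖ ≤ qq p := by
      have e1 : (1 : ℚ_[p]) = p * ((b : ℚ_[p]) + e j) := by
        rw [h1, hb]; push_cast; ring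
      rw [e1, norm_mul]
      have h5 : ‖(b : ℚ_[p]) + e j‖ ≤ 1 := by
        refine (Padic.nonarchimedean _ _).trans (max_le ?_ (he j))
        exact_mod_cast Padic.norm_int_le_one (p := p) (b : ℤ)
      rw [Padic.norm_p]
      have := qq_pos (p := p)
      unfold qq at this ⊢
      nlinarith [norm_nonneg ((b : ℚ_[p]) + e j)]
    rw [norm_one] at h3
    exact absurd h3 (not_le.2 qq_lt)
  · have hy : ∑ i, algebraMap ℚ_[p] (PadicAlgCl p) (-(e i)) * (x i : PadicAlgCl p) ∈ OO L := by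
      rw [mem_OO]
      refine ⟨sum_mem fun i _ => L.mul_mem (L.algebraMap_mem _) (x i).2.1, ?_⟩
      refine sum_le' _ _ zero_le_one fun i _ => ?_
      rw [norm_mul, ← hcast, PadicAlgCl.norm_extends, norm_neg]
      exact mul_le_one₀ (he i) (norm_nonneg _) (x i).2.2
    refine ⟨⟨_, hy⟩, ?_⟩
    apply Subtype.ext
    show (((p : ℕ) • (⟨_, hy⟩ : OO L) : OO L) : PadicAlgCl p) = ((∑ i, a i • x i : OO L) : PadicAlgCl p)
    rw [AddSubmonoidClass.coe_finsetSum, AddSubgroup.coe_nsmul]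
    simp only [AddSubgroup.coe_nsmul, nsmul_eq_mul]
    rw [← sub_eq_zero, Finset.mul_sum, ← Finset.sum_sub_distrib]
    rw [← neg_eq_zero, ← Finset.sum_neg_distrib, ← hrel2]
    refine Finset.sum_congr rfl fun i _ => ?_
    rw [hae i, map_add, map_natCast, map_mul, map_natCast, map_neg]
    ring

/-- the units of `L` -/
def Un : Subgroup (PadicAlgCl p)ˣ where
  carrier := {x | (x : PadicAlgCl p) ∈ L ∧ ‖(x : PadicAlgCl p)‖ = 1}
  mul_mem' := fun {x y} hx hy => ⟨by rw [Units.val_mul]; exact L.mul_mem hx.1 hy.1, by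
    rw [Units.val_mul, norm_mul, hx.2, hy.2, one_mul]⟩
  one_mem' := ⟨by rw [Units.val_one]; exact L.one_mem, by rw [Units.val_one, norm_one]⟩
  inv_mem' := fun {x} hx => ⟨by rw [Units.val_inv_eq_inv_val]; exact L.inv_mem hx.1, by
    rw [Units.val_inv_eq_inv_val, norm_inv, hx.2, inv_one]⟩

lemma mem_Un {x : (PadicAlgCl p)ˣ} :
    x ∈ Un L ↔ (x : PadicAlgCl p) ∈ L ∧ ‖(x : PadicAlgCl p)‖ = 1 := Iff.rfl

/-- the units congruent to `1` modulo `p` -/
def Up : Subgroup (PadicAlgCl p)ˣ where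
  carrier := {x | (x : PadicAlgCl p) ∈ L ∧ ‖(x : PadicAlgCl p) - 1‖ ≤ qq p}
  mul_mem' := by
    intro x y hx hy
    refine ⟨by rw [Units.val_mul]; exact L.mul_mem hx.1 hy.1, ?_⟩
    have e : ((x * y : (PadicAlgCl p)ˣ) : PadicAlgCl p) - 1 =
        ((x : PadicAlgCl p) - 1) * y + ((y : PadicAlgCl p) - 1) := by
      rw [Units.val_mul]; ring
    rw [e]
    refine add_le' ?_ hy.2
    rw [norm_mul, norm_one_of qq_lt hy.2, mul_one]
    exact hx.2
  one_mem' := ⟨by rw [Units.val_one]; exact L.one_mem, by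
    rw [Units.val_one, sub_self, norm_zero]; exact qq_pos.le⟩
  inv_mem' := by
    intro x hx
    refine ⟨by rw [Units.val_inv_eq_inv_val]; exact L.inv_mem hx.1, ?_⟩
    have e : ((x⁻¹ : (PadicAlgCl p)ˣ) : PadicAlgCl p) - 1 =
        -((x : PadicAlgCl p) - 1) * (x : PadicAlgCl p)⁻¹ := by
      rw [Units.val_inv_eq_inv_val]
      have := x.ne_zero
      field_simp
      ring
    rw [e, norm_mul, norm_neg, norm_inv, norm_one_of qq_lt hx.2, inv_one, mul_one]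
    exact hx.2

lemma mem_Up {x : (PadicAlgCl p)ˣ} :
    x ∈ Up L ↔ (x : PadicAlgCl p) ∈ L ∧ ‖(x : PadicAlgCl p) - 1‖ ≤ qq p := Iff.rfl

/-- `p`-th roots of the elements congruent to `1` modulo `p²` -/
lemma proot (hp : p ≠ 2) {x : PadicAlgCl p} (hx : x ∈ L) (h : ‖x - 1‖ ≤ qq p ^ 2) :
    ∃ y ∈ L, y ^ p = x ∧ ‖y - 1‖ ≤ qq p := by
  have hpr := (Fact.out : p.Prime)
  obtain ⟨y0, hy0⟩ := IsAlgClosed.exists_pow_nat_eq x (n := p) hpr.pos
  have h1 : ∃ y : PadicAlgCl p, y ^ p = x ∧ ‖y - 1‖ ≤ qq p := by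
    have : NeZero ((p : ℕ) : PadicAlgCl p) := ⟨p_ne⟩
    obtain ⟨ζ, hζ⟩ : ∃ ζ : PadicAlgCl p, IsPrimitiveRoot ζ p :=
      HasEnoughRootsOfUnity.exists_primitiveRoot _ _
    set S := nthRootsFinset p (1 : PadicAlgCl p) with hS
    have hprod : (X ^ p - 1 : (PadicAlgCl p)[X]) = ∏ ζ ∈ S, (X - C ζ) :=
      X_pow_sub_one_eq_prod hpr.pos hζ
    have h1S : (1 : PadicAlgCl p) ∈ S := by
      rw [hS, mem_nthRootsFinset hpr.pos, one_pow]
    obtain ⟨ζ₀, hζ₀, hmin⟩ := S.exists_min_image (fun ζ => ‖y0 - ζ‖) ⟨1, h1S⟩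
    have hζ₀' : ζ₀ ^ p = 1 := (mem_nthRootsFinset hpr.pos _).1 hζ₀
    have e1 : y0 ^ p - 1 = ∏ ζ ∈ S, (y0 - ζ) := by
      have := congrArg (eval y0) hprod
      simpa [eval_prod] using this
    have e2 : ∏ ζ ∈ S.erase ζ₀, (ζ₀ - ζ) = p * ζ₀ ^ (p - 1) := by
      have h := Lagrange.eval_nodal_derivative_eval_node_eq (s := S) (v := id) hζ₀
      simp only [Lagrange.nodal, id] at h
      rw [← hprod] at h
      simp only [derivative_sub, derivative_X_pow, derivative_one, sub_zero, eval_mul,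
        eval_pow, eval_X, eval_prod, eval_sub, eval_C] at h
      rw [← h]
    have e3 : ∏ ζ ∈ S.erase ζ₀, ‖ζ₀ - ζ‖ = qq p := by
      rw [← norm_prod, e2, norm_mul, n_p, norm_pow, norm_root hζ₀', one_pow, mul_one]
    have e4 : ∏ ζ ∈ S.erase ζ₀, ‖ζ₀ - ζ‖ ≤ ∏ ζ ∈ S.erase ζ₀, ‖y0 - ζ‖ := by
      refine Finset.prod_le_prod (fun _ _ => norm_nonneg _) fun ζ hζ => ?_
      have e : ζ₀ - ζ = (y0 - ζ) - (y0 - ζ₀) := by ring
      rw [e]
      exact sub_le' le_rfl (hmin ζ (Finset.mem_of_mem_erase hζ))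
    have e5 : ‖y0 - ζ₀‖ * ∏ ζ ∈ S.erase ζ₀, ‖y0 - ζ‖ = ‖x - 1‖ := by
      rw [← hy0, e1, norm_prod]
      exact Finset.mul_prod_erase S (fun ζ => ‖y0 - ζ‖) hζ₀
    have e6 : ‖y0 - ζ₀‖ ≤ qq p := by
      have h7 : ‖y0 - ζ₀‖ * qq p ≤ qq p ^ 2 := by
        rw [← e3]
        refine (mul_le_mul_of_nonneg_left e4 (norm_nonneg _)).trans ?_
        rw [e5, e3]
        exact h
      rw [pow_two] at h7
      exact le_of_mul_le_mul_right h7 qq_pos
    have hz0 : ζ₀ ≠ 0 := by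
      rw [← norm_ne_zero_iff, norm_root hζ₀']
      exact one_ne_zero
    refine ⟨y0 / ζ₀, by rw [div_pow, hy0, hζ₀', div_one], ?_⟩
    have e : y0 / ζ₀ - 1 = (y0 - ζ₀) / ζ₀ := by
      field_simp
    rw [e, norm_div, norm_root hζ₀', div_one]
    exact e6
  obtain ⟨y, hy, hy1⟩ := h1
  refine ⟨y, ?_, hy, hy1⟩
  rw [← InfiniteGalois.fixedField_fixingSubgroup L, IntermediateField.mem_fixedField_iff]
  intro τ hτ
  have hτx : τ x = x := (IntermediateField.mem_fixingSubgroup_iff _ _).1 hτ x hx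
  have hyn : ‖y‖ = 1 := norm_one_of qq_lt hy1
  have hy00 : y ≠ 0 := by rw [← norm_ne_zero_iff, hyn]; exact one_ne_zero
  have h2 : (τ y / y) ^ p = 1 := by
    rw [div_pow, ← map_pow, hy, hτx, div_self]
    rw [← hy]
    exact pow_ne_zero _ hy00
  have h4 : ‖τ y - 1‖ ≤ qq p := by
    have e : τ y - 1 = τ (y - 1) := by rw [map_sub, map_one]
    rw [e, nrm]; exact hy1
  have h5 : ‖τ y / y - 1‖ ≤ qq p := by
    have e : τ y / y - 1 = ((τ y - 1) - (y - 1)) / y := by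
      field_simp
      ring
    rw [e, norm_div, hyn, div_one]
    exact sub_le' h4 hy1
  have h6 := tors hp h2 h5
  rwa [div_eq_one_iff_eq hy00] at h6

lemma Up_le : Up L ≤ Un L := fun _ hx => ⟨hx.1, norm_one_of qq_lt hx.2⟩

lemma Up_fin [FiniteDimensional ℚ_[p] L] : (Up L).relIndex (Un L) ≠ 0 := by
  have h4 : (Mul (OO L) p).index ≠ 0 := (OO_idx L).1
  have : Finite (OO L ⧸ Mul (OO L) p) := by
    have : (Mul (OO L) p).FiniteIndex := ⟨h4⟩
    exact AddSubgroup.finite_quotient_of_finiteIndex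
  refine fi_of_map' (Up L) (Un L)
    (fun x => (QuotientAddGroup.mk (⟨((x : (PadicAlgCl p)ˣ) : PadicAlgCl p), x.2.1, x.2.2.le⟩ : OO L) :
      OO L ⧸ Mul (OO L) p)) ?_
  intro x y hxy
  rw [QuotientAddGroup.eq, mem_mul] at hxy
  obtain ⟨z, hz⟩ := hxy
  have hz' := congrArg (fun w : OO L => (w : PadicAlgCl p)) hz
  simp only [AddSubgroup.coe_nsmul, nsmul_eq_mul, AddSubgroup.coe_add, NegMemClass.coe_neg] at hz'
  have hy0 := (y : (PadicAlgCl p)ˣ).ne_zero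
  rw [mem_Up, Units.val_div_eq_div_val]
  refine ⟨L.div_mem x.2.1 y.2.1, ?_⟩
  have e : ((x : (PadicAlgCl p)ˣ) : PadicAlgCl p) / ((y : (PadicAlgCl p)ˣ) : PadicAlgCl p) - 1 =
      -(p * (z : PadicAlgCl p)) / ((y : (PadicAlgCl p)ˣ) : PadicAlgCl p) := by
    rw [hz']
    field_simp
    ring
  rw [e, norm_div, norm_neg, norm_mul, n_p, y.2.2, div_one]
  have := z.2.2
  have h7 := qq_pos (p := p)
  nlinarith [norm_nonneg (z : PadicAlgCl p)]

lemma dv_mem {x : (PadicAlgCl p)ˣ} (hx : x ∈ Up L) : ((x : PadicAlgCl p) - 1) / p ∈ OO L :=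
  ⟨L.div_mem (L.sub_mem hx.1 L.one_mem) (pL L), by
    rw [norm_div, n_p, div_le_one qq_pos]; exact hx.2⟩

/-- the homomorphism `1 + p a ↦ a` modulo `p` -/
noncomputable def ff : Up L →* Multiplicative (OO L ⧸ Mul (OO L) p) where
  toFun x := Multiplicative.ofAdd (QuotientAddGroup.mk
    (⟨(((x : (PadicAlgCl p)ˣ) : PadicAlgCl p) - 1) / p, dv_mem L x.2⟩ : OO L))
  map_one' := by
    rw [← ofAdd_zero]
    congr 1
    rw [QuotientAddGroup.eq_zero_iff]
    refine ⟨0, ?_⟩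
    apply Subtype.ext
    simp
  map_mul' := by
    intro x y
    rw [← ofAdd_add, ← QuotientAddGroup.mk_add]
    congr 1
    rw [QuotientAddGroup.eq, mem_mul]
    have hx := dv_mem L x.2
    have hy := dv_mem L y.2
    have hm : -(((((x : (PadicAlgCl p)ˣ) : PadicAlgCl p) - 1) / p) *
        ((((y : (PadicAlgCl p)ˣ) : PadicAlgCl p) - 1) / p)) ∈ OO L := by
      refine ⟨L.neg_mem (L.mul_mem hx.1 hy.1), ?_⟩
      rw [norm_neg, norm_mul]
      exact mul_le_one₀ hx.2 (norm_nonneg _) hy.2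
    refine ⟨⟨_, hm⟩, ?_⟩
    apply Subtype.ext
    simp only [AddSubgroup.coe_nsmul, nsmul_eq_mul, AddSubgroup.coe_add, NegMemClass.coe_neg,
      Subgroup.coe_mul, Units.val_mul]
    have := p_ne (p := p)
    field_simp
    ring

lemma ff_ker (hp : p ≠ 2) : (ff L).ker ≤ (PwH p (Up L)).subgroupOf (Up L) := by
  intro x hx
  rw [MonoidHom.mem_ker] at hx
  have h1 : (QuotientAddGroup.mk (⟨(((x : (PadicAlgCl p)ˣ) : PadicAlgCl p) - 1) / p,
      dv_mem L x.2⟩ : OO L) : OO L ⧸ Mul (OO L) p) = 0 := hx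
  rw [QuotientAddGroup.eq_zero_iff, mem_mul] at h1
  obtain ⟨z, hz⟩ := h1
  have hz' := congrArg (fun w : OO L => (w : PadicAlgCl p)) hz
  simp only [AddSubgroup.coe_nsmul, nsmul_eq_mul] at hz'
  have h8 : ‖((x : (PadicAlgCl p)ˣ) : PadicAlgCl p) - 1‖ ≤ qq p ^ 2 := by
    have e : ((x : (PadicAlgCl p)ˣ) : PadicAlgCl p) - 1 = p * (p * z) := by
      rw [hz', mul_div_cancel₀ _ p_ne]
    rw [e, norm_mul, norm_mul, n_p]
    have := z.2.2
    have h7 := qq_pos (p := p)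
    have h9 : qq p * ‖(z : PadicAlgCl p)‖ ≤ qq p := by
      calc qq p * ‖(z : PadicAlgCl p)‖ ≤ qq p * 1 := mul_le_mul_of_nonneg_left this h7.le
        _ = qq p := mul_one _
    calc qq p * (qq p * ‖(z : PadicAlgCl p)‖) ≤ qq p * qq p := mul_le_mul_of_nonneg_left h9 h7.le
      _ = qq p ^ 2 := (pow_two _).symm
  obtain ⟨y, hy, hyx, hy1⟩ := proot L hp x.2.1 h8
  have hy0 : y ≠ 0 := by
    rw [← norm_ne_zero_iff, norm_one_of qq_lt hy1]
    exact one_ne_zero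
  rw [Subgroup.mem_subgroupOf, mem_pwH]
  refine ⟨Units.mk0 y hy0, ⟨hy, hy1⟩, ?_⟩
  apply Units.ext
  rw [Units.val_pow_eq_pow_val]
  exact hyx

lemma pw_idx (hp : p ≠ 2) [FiniteDimensional ℚ_[p] L] : (PwH p (Up L)).relIndex (Up L) ≠ 0 ∧
    (PwH p (Up L)).relIndex (Up L) ≤ p ^ Module.finrank ℚ_[p] L := by
  obtain ⟨h1, h2⟩ := OO_idx L
  have : (Mul (OO L) p).FiniteIndex := ⟨h1⟩
  have : Finite (OO L ⧸ Mul (OO L) p) := AddSubgroup.finite_quotient_of_finiteIndex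
  have : Finite (Multiplicative (OO L ⧸ Mul (OO L) p)) := this
  obtain ⟨h3, h4⟩ := idx_of_ker (ff L) _ (ff_ker L hp)
  refine ⟨h3, h4.trans ?_⟩
  exact h2

/-- the torsion elements are roots of unity -/
noncomputable def tmap (x : Tor p (Un L)) : nthRootsFinset p (1 : PadicAlgCl p) :=
  ⟨(((x : Un L) : (PadicAlgCl p)ˣ) : PadicAlgCl p), by
    rw [mem_nthRootsFinset (Fact.out : p.Prime).pos]
    have h1 : ((x : Un L)) ^ p = 1 := x.2
    have h2 := congrArg (fun w : Un L => (((w : (PadicAlgCl p)ˣ)) : PadicAlgCl p)) h1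
    simpa only [Subgroup.coe_pow, Units.val_pow_eq_pow_val, Subgroup.coe_one, Units.val_one]
      using h2⟩

lemma tmap_inj : Function.Injective (tmap L) := by
  intro x y hxy
  apply Subtype.ext
  apply Subtype.ext
  apply Units.ext
  exact congrArg Subtype.val hxy

lemma tor_card : Nat.card (Tor p (Un L)) ≤ p := by
  have h : Nat.card (Tor p (Un L)) ≤ Nat.card (nthRootsFinset p (1 : PadicAlgCl p)) :=
    Nat.card_le_card_of_injective _ (tmap_inj L)
  refine h.trans ?_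
  rw [Nat.card_eq_fintype_card, Fintype.card_coe, nthRootsFinset_def]
  exact (Multiset.toFinset_card_le _).trans (card_nthRoots p 1)

lemma tor_fin : Finite (Tor p (Un L)) := Finite.of_injective _ (tmap_inj L)

/-- the classes of the units modulo `p`-th powers -/
lemma un_idx (hp : p ≠ 2) [FiniteDimensional ℚ_[p] L] :
    ((PwH p (Un L)).subgroupOf (Un L)).index ≠ 0 ∧
    ((PwH p (Un L)).subgroupOf (Un L)).index ≤ p ^ (Module.finrank ℚ_[p] L + 1) := by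
  have h := herbrand_rel p (Up_le L) (Up_fin L) (by
    intro x hx hx2
    have h2 := congrArg Units.val hx2
    rw [Units.val_pow_eq_pow_val, Units.val_one] at h2
    exact Units.ext (tors hp h2 hx.2))
  have h1 : ((PwH p (Un L)).subgroupOf (Un L)).index = (PwH p (Un L)).relIndex (Un L) := rfl
  obtain ⟨h2, h3⟩ := pw_idx L hp
  have hfin : Finite (Tor p (Un L)) := tor_fin L
  have h4 : 0 < Nat.card (Tor p (Un L)) := Nat.card_pos
  rw [h1, h]
  refine ⟨mul_ne_zero h2 h4.ne', ?_⟩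
  rw [pow_succ]
  exact Nat.mul_le_mul h3 (tor_card L)

/-- the valuations of `L` are the powers of one element -/
lemma exists_unif [FiniteDimensional ℚ_[p] L] : ∃ π ∈ L, π ≠ 0 ∧
    ∀ x ∈ L, x ≠ 0 → ∃ k : ℤ, ‖x * π ^ k‖ = 1 := by
  set S : Set ℝ := {r | qq p < r ∧ r < 1 ∧ ∃ x ∈ L, ‖x‖ = r} with hS
  have hSf : S.Finite := by
    obtain ⟨h1, h2⟩ := OO_idx L
    have : (Mul (OO L) p).FiniteIndex := ⟨h1⟩
    have : Finite (OO L ⧸ Mul (OO L) p) := AddSubgroup.finite_quotient_of_finiteIndex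
    choose x hx hxr using fun r : S => r.2.2.2
    have : Finite S := by
      refine Finite.of_injective (fun r : S => (QuotientAddGroup.mk
        (⟨x r, hx r, by rw [hxr]; exact r.2.2.1.le⟩ : OO L) : OO L ⧸ Mul (OO L) p)) ?_
      intro r r' hrr
      simp only at hrr
      rw [QuotientAddGroup.eq, mem_mul] at hrr
      obtain ⟨z, hz⟩ := hrr
      have hz' := congrArg (fun w : OO L => (w : PadicAlgCl p)) hz
      simp only [AddSubgroup.coe_nsmul, nsmul_eq_mul, AddSubgroup.coe_add,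
        NegMemClass.coe_neg] at hz'
      have h3 : ‖x r' - x r‖ ≤ qq p := by
        have e : x r' - x r = p * z := by rw [hz']; ring
        rw [e, norm_mul, n_p]
        have := z.2.2
        have h7 := qq_pos (p := p)
        nlinarith [norm_nonneg (z : PadicAlgCl p)]
      apply Subtype.ext
      rw [← hxr r, ← hxr r']
      have hr1 : qq p < ‖x r‖ := by rw [hxr]; exact r.2.1
      have hr2 : qq p < ‖x r'‖ := by rw [hxr]; exact r'.2.1
      apply le_antisymm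
      · have e : x r = x r' - (x r' - x r) := by ring
        rw [e]
        exact sub_le' le_rfl (h3.trans hr2.le)
      · have e : x r' = x r + (x r' - x r) := by ring
        nth_rewrite 1 [e]
        exact add_le' le_rfl (h3.trans hr1.le)
    exact Set.toFinite S
  obtain ⟨ρ, hρ, hmax⟩ := Set.exists_max_image (S ∪ {qq p}) id
    (hSf.union (Set.finite_singleton _)) ⟨qq p, Or.inr rfl⟩
  have hρ1 : qq p ≤ ρ := hmax (qq p) (Or.inr rfl)
  have hρ2 : ρ < 1 := by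
    rcases hρ with h | h
    · exact h.2.1
    · rw [Set.mem_singleton_iff.1 h]; exact qq_lt
  obtain ⟨π, hπ, hπn⟩ : ∃ π ∈ L, ‖π‖ = ρ := by
    rcases hρ with h | h
    · exact h.2.2
    · refine ⟨p, pL L, ?_⟩
      rw [Set.mem_singleton_iff.1 h, n_p]
  have hρ0 : 0 < ρ := lt_of_lt_of_le qq_pos hρ1
  have hπ0 : π ≠ 0 := by
    rw [← norm_ne_zero_iff, hπn]; exact hρ0.ne'
  refine ⟨π, hπ, hπ0, fun x hx hx0 => ?_⟩
  have hy : 1 < ρ⁻¹ := (one_lt_inv₀ hρ0).2 hρ2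
  obtain ⟨n, hn1, hn2⟩ := exists_mem_Ioc_zpow (norm_pos_iff.2 hx0) hy
  refine ⟨n + 1, ?_⟩
  have hmul : ‖x * π ^ (n + 1)‖ = ‖x‖ * ρ ^ (n + 1) := by rw [norm_mul, norm_zpow, hπn]
  have hle : ‖x * π ^ (n + 1)‖ ≤ 1 := by
    rw [hmul]
    calc ‖x‖ * ρ ^ (n + 1) ≤ ρ⁻¹ ^ (n + 1) * ρ ^ (n + 1) := by
          gcongr
      _ = 1 := by rw [inv_zpow, inv_mul_cancel₀ (zpow_ne_zero _ hρ0.ne')]
  have hgt : ρ < ‖x * π ^ (n + 1)‖ := by
    rw [hmul]
    calc ρ = ρ⁻¹ ^ n * ρ ^ (n + 1) := by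
          rw [inv_zpow, zpow_add₀ hρ0.ne', zpow_one, ← mul_assoc,
            inv_mul_cancel₀ (zpow_ne_zero _ hρ0.ne'), one_mul]
      _ < ‖x‖ * ρ ^ (n + 1) := by
          gcongr
  by_contra hne
  have hlt : ‖x * π ^ (n + 1)‖ < 1 := lt_of_le_of_ne hle hne
  have hmem : ‖x * π ^ (n + 1)‖ ∈ S ∪ {qq p} :=
    Or.inl ⟨lt_of_le_of_lt hρ1 hgt, hlt, _, L.mul_mem hx (zm hπ _), rfl⟩
  exact absurd (hmax _ hmem) (not_le.2 hgt)

theorem s_C1 : S_C1 := by
  intro p _ hp L hL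
  have hpr := (Fact.out : p.Prime)
  obtain ⟨π, hπ, hπ0, hval⟩ := exists_unif L
  obtain ⟨h1, h2⟩ := un_idx L hp
  have : ((PwH p (Un L)).subgroupOf (Un L)).FiniteIndex := ⟨h1⟩
  have : Finite (Un L ⧸ (PwH p (Un L)).subgroupOf (Un L)) :=
    Subgroup.finite_quotient_of_finiteIndex
  have := Fintype.ofFinite (Un L ⧸ (PwH p (Un L)).subgroupOf (Un L))
  refine ⟨(Finset.univ : Finset ((Un L ⧸ (PwH p (Un L)).subgroupOf (Un L)) × Fin p)).image
    (fun q => (((q.1.out : Un L) : (PadicAlgCl p)ˣ) : PadicAlgCl p) * π ^ (q.2 : ℕ)), ?_, ?_⟩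
  · refine Finset.card_image_le.trans ?_
    rw [Finset.card_univ, Fintype.card_prod, Fintype.card_fin, ← Nat.card_eq_fintype_card]
    have h3 : Nat.card (Un L ⧸ (PwH p (Un L)).subgroupOf (Un L)) ≤
      p ^ (Module.finrank ℚ_[p] L + 1) := h2
    have e : p ^ (Module.finrank ℚ_[p] L + 2) = p ^ (Module.finrank ℚ_[p] L + 1) * p := by ring
    rw [e]
    exact Nat.mul_le_mul h3 le_rfl
  · intro x hx hx0
    obtain ⟨k, hk⟩ := hval x hx hx0
    have hu0 : x * π ^ k ≠ 0 := mul_ne_zero hx0 (zpow_ne_zero _ hπ0)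
    set u : Un L := ⟨Units.mk0 (x * π ^ k) hu0, L.mul_mem hx (zm hπ _), hk⟩ with hu
    set q : Un L ⧸ (PwH p (Un L)).subgroupOf (Un L) := QuotientGroup.mk u with hq
    have hqo : (QuotientGroup.mk (q.out) : Un L ⧸ (PwH p (Un L)).subgroupOf (Un L)) =
      QuotientGroup.mk u := QuotientGroup.out_eq' q
    rw [QuotientGroup.eq, Subgroup.mem_subgroupOf, mem_pwH] at hqo
    obtain ⟨y, hy, hyq⟩ := hqo
    have hyq' := congrArg Units.val hyq
    simp only [Units.val_pow_eq_pow_val, Subgroup.coe_mul, Subgroup.coe_inv, Units.val_mul,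
      Units.val_inv_eq_inv_val] at hyq'
    have hr0 := ((q.out : Un L) : (PadicAlgCl p)ˣ).ne_zero
    have hxu : x * π ^ k = (((q.out : Un L) : (PadicAlgCl p)ˣ) : PadicAlgCl p) * (y : PadicAlgCl p) ^ p := by
      rw [hyq', mul_inv_cancel_left₀ hr0]
      rfl
    obtain ⟨l, j, hj, hkl⟩ : ∃ (l : ℤ) (j : ℕ), j < p ∧ -k = p * l + j := by
      have hp0 : (0 : ℤ) < p := by exact_mod_cast hpr.pos
      refine ⟨(-k) / p, ((-k) % p).toNat, ?_, ?_⟩
      · have := Int.emod_lt_of_pos (-k) hp0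
        have := Int.emod_nonneg (-k) hp0.ne'
        omega
      · have := Int.emod_nonneg (-k) hp0.ne'
        rw [Int.toNat_of_nonneg this]
        exact (Int.mul_ediv_add_emod (-k) p).symm
    refine ⟨(((q.out : Un L) : (PadicAlgCl p)ˣ) : PadicAlgCl p) * π ^ j, ?_, (y : PadicAlgCl p) * π ^ l,
      L.mul_mem hy.1 (zm hπ _), L.mul_mem (q.out : Un L).2.1 (pm hπ _),
      mul_ne_zero hr0 (pow_ne_zero _ hπ0), ?_⟩
    · rw [Finset.mem_image]
      exact ⟨(q, ⟨j, hj⟩), Finset.mem_univ _, rfl⟩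
    · have e1 : x = (x * π ^ k) * π ^ (-k) := by
        rw [mul_assoc, ← zpow_add₀ hπ0, add_neg_cancel, zpow_zero, mul_one]
      rw [e1, hxu, hkl, zpow_add₀ hπ0, zpow_mul', zpow_natCast, zpow_natCast]
      ring

end Pool.Agent.L7h22.SG.C1

theorem Pool.Agent.L7h22.SG.s_C1 : Pool.Agent.L7h48.SG.S_C1 := Pool.Agent.L7h22.SG.C1.s_C1
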