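import Pool.Agent.L7h22.SG.C1
import Pool.Agent.L7h60.SG.Kum

/-!
# Project SG, [C2]: the homomorphisms of the open subgroups of the absolute Galois group of `ℚ_p`

Port of `Pool.Agent.K7.H81.PS.C2` (by another member of the team) from `2` to odd `p`.
-/

set_option autoImplicit false

namespace Pool.Agent.L7h22.SG.C2

open Pool.Agent.L7h48.SG Pool.Agent.L7h60.SG
open Pool.Agent.Y715.Nr

theorem s_C2' : S_C1 → S_C2 := by
  intro hC1 p _ hp V hV hμ
  have hpr := (Fact.out : p.Prime)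
  have hc : IsClosed (V : Set (Au p)) := Subgroup.isClosed_of_isOpen V hV
  have hfix : (IntermediateField.fixedField V).fixingSubgroup = V :=
    InfiniteGalois.fixingSubgroup_fixedField (k := ℚ_[p]) (K := PadicAlgCl p) ⟨V, hc⟩
  have hfd : FiniteDimensional ℚ_[p] (IntermediateField.fixedField V) := by
    refine (InfiniteGalois.isOpen_iff_finite _).1 ?_
    rw [hfix]
    exact hV
  have hrank : Module.finrank ℚ_[p] (IntermediateField.fixedField V) = V.index := by
    rw [IntermediateField.finrank_eq_fixingSubgroup_index, hfix]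
  obtain ⟨R, hRc, hR⟩ := hC1 p hp _ hfd
  rw [hrank] at hRc
  have : NeZero ((p : ℕ) : PadicAlgCl p) := ⟨Pool.Agent.L7h22.SG.C1.p_ne⟩
  obtain ⟨ζ, hζ⟩ : ∃ ζ : PadicAlgCl p, IsPrimitiveRoot ζ p :=
    HasEnoughRootsOfUnity.exists_primitiveRoot _ _
  have hζV : ∀ τ ∈ V, τ ζ = ζ := fun τ hτ => hμ τ hτ ζ hζ.pow_eq_one
  have key : ∀ φ : HP p V, ∃ r : R, ∃ y : PadicAlgCl p, y ^ p = r.1 ∧ y ≠ 0 ∧
      ∀ g ∈ V, g y = zc ζ (φ.1 g) * y := by
    intro φ
    obtain ⟨y, hy0, hyg⟩ := kummer p V hV ζ hζ hζV φ.1 φ.2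
    have hy2 : ∀ g ∈ V, g (y ^ p) = y ^ p := by
      intro g hg
      rw [map_pow, hyg g hg, mul_pow]
      have : (zc ζ (φ.1 g)) ^ p = 1 := by
        unfold zc
        rw [← pow_mul, mul_comm, pow_mul, hζ.pow_eq_one, one_pow]
      rw [this, one_mul]
    have hyL : y ^ p ∈ IntermediateField.fixedField V := by
      rw [IntermediateField.mem_fixedField_iff]
      exact hy2
    obtain ⟨r, hr, z, hz, hrL, hr0, hrz⟩ := hR (y ^ p) hyL (pow_ne_zero p hy0)
    have hz0 : z ≠ 0 := by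
      rintro rfl
      rw [zero_pow hpr.ne_zero, mul_zero] at hrz
      exact pow_ne_zero p hy0 hrz
    rw [IntermediateField.mem_fixedField_iff] at hz
    refine ⟨⟨r, hr⟩, y / z, ?_, div_ne_zero hy0 hz0, fun g hg => ?_⟩
    · rw [div_pow, hrz, mul_div_cancel_right₀ _ (pow_ne_zero p hz0)]
    · rw [map_div₀, hz _ hg, hyg g hg, mul_div_assoc]
  choose f y hy hy0 hg using key
  have hinj : Function.Injective f := by
    intro φ ψ h
    have h1 : y φ ^ p = y ψ ^ p := by rw [hy, hy, h]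
    have h2 : (y φ / y ψ) ^ p = 1 := by
      rw [div_pow, h1, div_self (pow_ne_zero p (hy0 ψ))]
    obtain ⟨a, ha⟩ := exists_zc hζ h2
    have h3 : y φ = zc ζ a * y ψ := by
      rw [← ha, div_mul_cancel₀ _ (hy0 ψ)]
    apply Subtype.ext
    funext g
    by_cases hgV : g ∈ V
    · have h4 := hg φ g hgV
      rw [h3, map_mul, map_zc g (hζV g hgV), hg ψ g hgV] at h4
      have h5 : zc ζ (ψ.1 g) = zc ζ (φ.1 g) := by
        have h6 : (zc ζ (ψ.1 g) - zc ζ (φ.1 g)) * (zc ζ a * y ψ) = 0 := by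
          linear_combination h4
        rcases mul_eq_zero.1 h6 with h7 | h7
        · exact sub_eq_zero.1 h7
        · exact absurd h7 (mul_ne_zero (zc_ne hζ.pow_eq_one a) (hy0 ψ))
      exact (zc_inj hζ h5).symm
    · rw [φ.2.2.2 g hgV, ψ.2.2.2 g hgV]
  have hfin : Finite (HP p V) := Finite.of_injective f hinj
  have hcard : Nat.card (HP p V) ≤ p ^ (V.index + 2) := by
    refine (Nat.card_le_card_of_injective f hinj).trans ?_
    simpa using hRc
  refine ⟨Module.Finite.of_finite, ?_⟩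
  rw [Module.natCard_eq_pow_finrank (K := ZMod p), Nat.card_zmod] at hcard
  exact (Nat.pow_le_pow_iff_right hpr.one_lt).1 hcard

end Pool.Agent.L7h22.SG.C2

theorem Pool.Agent.L7h22.SG.s_C2 : Pool.Agent.L7h48.SG.S_C2 :=
  Pool.Agent.L7h22.SG.C2.s_C2' Pool.Agent.L7h22.SG.s_C1
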