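import Pool.Agent.L7h48.SG.Stm
import Pool.Agent.R384.Z.Qd
import Pool.Agent.L7h22.SG.C1

/-!
# Project SG, [D2]: the `p`-units of the fields

Port of `Pool.Agent.K7.H15.PS.D2` (by another member of the team) from `2` to odd `p`; the two primes
above `p` are given by two embeddings in `PadicAlgCl p`.
-/

set_option autoImplicit false

namespace Pool.Agent.L7h22.SG.D2

open Pool.Agent.L7h48.SG
open Pool.Agent.Y715.Gi (QB KK GK i₀_mem gk_fix)
open Pool.Agent.Y715.Nr Pool.Agent.W237.RK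
open Pool.Agent.Z384 (II DD DDs exists_conj)
open Polynomial

lemma finrank_KK {s : QB} {d : ℕ} (hs : s ^ 2 = -(d : QB)) (hd : d ≠ 0) :
    Module.finrank ℚ (KK s) = 2 := by
  have hint : IsIntegral ℚ s := (Algebra.IsAlgebraic.isAlgebraic s).isIntegral
  rw [IntermediateField.adjoin.finrank hint]
  have h1 : (minpoly ℚ s).natDegree ≤ 2 := by
    have hm : (X ^ 2 + C (d : ℚ) : ℚ[X]).Monic := by monicity!
    have h2 := minpoly.min ℚ s hm (by
      simp only [map_add, map_pow, aeval_X, hs, map_natCast]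
      ring)
    have h3 := natDegree_le_natDegree h2
    refine h3.trans (le_of_eq ?_)
    compute_degree!
  have h2 : (minpoly ℚ s).natDegree ≠ 1 := by
    intro h
    rw [minpoly.natDegree_eq_one_iff] at h
    obtain ⟨q, hq⟩ := h
    obtain ⟨c, hc⟩ := exists_conj hs hd
    rw [← hq] at hc
    have h3 := c.commutes q
    rw [hc] at h3
    have h4 : algebraMap ℚ QB q = 0 := by
      have : (2 : QB) * algebraMap ℚ QB q = 0 := by linear_combination -h3
      rcases mul_eq_zero.1 this with h5 | h5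
      · exact absurd h5 (by norm_num)
      · exact h5
    rw [← hq, h4] at hs
    have h5 : (d : QB) = 0 := by linear_combination hs
    exact hd (by exact_mod_cast h5)
  have h3 : 0 < (minpoly ℚ s).natDegree := minpoly.natDegree_pos hint
  omega

variable {p : ℕ} [Fact p.Prime]

/-- the embedding of the integers -/
noncomputable abbrev jj {L : Type} [Field L] (j : L →+* PadicAlgCl p) :
    NumberField.RingOfIntegers L →+* PadicAlgCl p :=
  j.comp (algebraMap (NumberField.RingOfIntegers L) L)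

lemma jj_le {L : Type} [Field L] (j : L →+* PadicAlgCl p) (x : NumberField.RingOfIntegers L) :
    ‖jj j x‖ ≤ 1 :=
  Pool.Agent.W902.TB.norm_le_one_of_isIntegral _ (x.2.map j.toIntAlgHom)

/-- the prime ideal of an embedding -/
noncomputable def PI {L : Type} [Field L] (j : L →+* PadicAlgCl p) :
    Ideal (NumberField.RingOfIntegers L) where
  carrier := {x | ‖jj j x‖ < 1}
  add_mem' := by
    intro a b ha hb
    show ‖jj j (a + b)‖ < 1
    rw [map_add]
    exact lt_of_le_of_lt (PadicAlgCl.isNonarchimedean p _ _) (max_lt ha hb)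
  zero_mem' := by
    show ‖jj j 0‖ < 1
    rw [map_zero, norm_zero]
    exact one_pos
  smul_mem' := by
    intro a x hx
    show ‖jj j (a * x)‖ < 1
    rw [map_mul, norm_mul]
    calc ‖jj j a‖ * ‖jj j x‖ ≤ 1 * ‖jj j x‖ :=
          mul_le_mul_of_nonneg_right (jj_le j a) (norm_nonneg _)
      _ < 1 := by rw [one_mul]; exact hx

lemma mem_PI {L : Type} [Field L] (j : L →+* PadicAlgCl p) (x : NumberField.RingOfIntegers L) :
    x ∈ PI j ↔ ‖jj j x‖ < 1 := Iff.rfl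

lemma PI_prime {L : Type} [Field L] (j : L →+* PadicAlgCl p) : (PI j).IsPrime := by
  refine ⟨?_, ?_⟩
  · rw [Ideal.ne_top_iff_one, mem_PI, map_one, norm_one]
    exact lt_irrefl _
  · intro a b hab
    rw [mem_PI, map_mul, norm_mul] at hab
    by_contra hcon
    push Not at hcon
    obtain ⟨h1, h2⟩ := hcon
    rw [mem_PI, not_lt] at h1 h2
    have := one_le_mul_of_one_le_of_one_le h1 h2
    linarith

lemma PI_p {L : Type} [Field L] (j : L →+* PadicAlgCl p) :
    (p : NumberField.RingOfIntegers L) ∈ PI j := by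
  rw [mem_PI, map_natCast, Pool.Agent.L7h22.SG.C1.n_p]
  exact Pool.Agent.L7h22.SG.C1.qq_lt

/-- an integral element which distinguishes the two embeddings -/
lemma sep (hp : p ≠ 2) {d : ℕ} (hd : d ≠ 0) {r : ℚ_[p]} (hr : r ^ 2 = -(d : ℚ_[p])) :
    ∃ (t : ℤ) (n : ℕ), (p : ℤ) ^ n ∣ 2 * t ∧ (p : ℤ) ^ (2 * n) ∣ t ^ 2 + d ∧
      ‖((t : ℚ_[p]) - r) / (p : ℚ_[p]) ^ n‖ < 1 ∧ ‖((t : ℚ_[p]) + r) / (p : ℚ_[p]) ^ n‖ = 1 := by
  have hpr := (Fact.out : p.Prime)
  have hr1 : ‖r‖ ≤ 1 := by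
    have h1 : ‖r‖ ^ 2 ≤ 1 := by
      rw [← norm_pow, hr, norm_neg]
      exact_mod_cast Padic.norm_int_le_one (p := p) (d : ℤ)
    nlinarith [norm_nonneg r]
  let a : ℤ_[p] := ⟨r, hr1⟩
  have ha : (a : ℚ_[p]) = r := rfl
  have ha0 : a ≠ 0 := by
    intro h
    have h1 : r = 0 := by rw [← ha, h]; rfl
    rw [h1] at hr
    have h2 : (d : ℚ_[p]) = 0 := by linear_combination hr
    exact hd (by exact_mod_cast h2)
  set n := a.valuation with hn
  have hnorm : ‖a‖ = (p : ℝ) ^ (-(n : ℤ)) := PadicInt.norm_eq_zpow_neg_valuation ha0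
  have hnorm' : ‖r‖ = (p : ℝ) ^ (-(n : ℤ)) := hnorm
  set t : ℤ := (a.appr (2 * n + 1) : ℤ) with ht
  have hp1 : (1 : ℝ) < p := by exact_mod_cast hpr.one_lt
  have hp0 : (0 : ℝ) < p := by linarith
  have h1 : ‖a - (a.appr (2 * n + 1) : ℤ_[p])‖ ≤ (p : ℝ) ^ (-((2 * n + 1 : ℕ) : ℤ)) := by
    rw [PadicInt.norm_le_pow_iff_mem_span_pow]
    exact PadicInt.appr_spec _ _
  have h2 : ‖(t : ℚ_[p]) - r‖ ≤ (p : ℝ) ^ (-((2 * n + 1 : ℕ) : ℤ)) := by
    have e : (t : ℚ_[p]) - r = -((a - (a.appr (2 * n + 1) : ℤ_[p]) : ℤ_[p]) : ℚ_[p]) := by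
      rw [PadicInt.coe_sub, PadicInt.coe_natCast, ha, ht]
      push_cast
      ring
    rw [e, norm_neg]
    exact h1
  have hpn : ‖(p : ℚ_[p]) ^ n‖ = (p : ℝ) ^ (-(n : ℤ)) := by
    rw [norm_pow, Padic.norm_p, zpow_neg, zpow_natCast, inv_pow]
  have h2r : ‖(2 : ℚ_[p])‖ = 1 := by
    have h3 : ‖((2 : ℤ) : ℚ_[p])‖ = 1 := by
      rw [Padic.norm_intCast_eq_one_iff]
      have : Nat.Coprime 2 p := (Nat.coprime_primes Nat.prime_two hpr).2 (Ne.symm hp)
      exact_mod_cast this.isCoprime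
    exact_mod_cast h3
  have hlt : (p : ℝ) ^ (-((2 * n + 1 : ℕ) : ℤ)) < (p : ℝ) ^ (-(n : ℤ)) := by
    apply zpow_lt_zpow_right₀ hp1
    push_cast
    omega
  have h3 : ‖(t : ℚ_[p]) + r‖ = (p : ℝ) ^ (-(n : ℤ)) := by
    have e : (t : ℚ_[p]) + r = ((t : ℚ_[p]) - r) + 2 * r := by ring
    have h4 : ‖2 * r‖ = (p : ℝ) ^ (-(n : ℤ)) := by rw [norm_mul, h2r, one_mul, hnorm']
    have h5 : ‖(t : ℚ_[p]) - r‖ < ‖2 * r‖ := by
      rw [h4]
      exact lt_of_le_of_lt h2 hlt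
    rw [e, IsUltrametricDist.norm_add_eq_max_of_norm_ne_norm h5.ne, max_eq_right h5.le, h4]
  refine ⟨t, n, ?_, ?_, ?_, ?_⟩
  · have h4 : ‖(t : ℚ_[p])‖ ≤ (p : ℝ) ^ (-(n : ℤ)) := by
      have e : (t : ℚ_[p]) = ((t : ℚ_[p]) - r) + r := by ring
      rw [e]
      exact (Padic.nonarchimedean _ _).trans (max_le (h2.trans hlt.le) hnorm'.le)
    rw [Padic.norm_int_le_pow_iff_dvd] at h4
    exact Dvd.dvd.mul_left (by exact_mod_cast h4) 2
  · have h4 : ‖((t ^ 2 + d : ℤ) : ℚ_[p])‖ ≤ (p : ℝ) ^ (-((2 * n : ℕ) : ℤ)) := by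
      have e : ((t ^ 2 + d : ℤ) : ℚ_[p]) = ((t : ℚ_[p]) - r) * ((t : ℚ_[p]) + r) := by
        push_cast
        linear_combination hr
      rw [e, norm_mul, h3]
      calc ‖(t : ℚ_[p]) - r‖ * (p : ℝ) ^ (-(n : ℤ)) ≤
            (p : ℝ) ^ (-((2 * n + 1 : ℕ) : ℤ)) * 1 := by
            apply mul_le_mul h2 _ (by positivity) (by positivity)
            apply zpow_le_one_of_nonpos₀ hp1.le
            omega
        _ ≤ (p : ℝ) ^ (-((2 * n : ℕ) : ℤ)) := by
            rw [mul_one]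
            apply zpow_le_zpow_right₀ hp1.le
            push_cast
            omega
    rw [Padic.norm_int_le_pow_iff_dvd] at h4
    exact_mod_cast h4
  · rw [norm_div, hpn, div_lt_one (by positivity)]
    exact lt_of_le_of_lt h2 hlt
  · rw [norm_div, hpn, h3, div_self]
    positivity

theorem s_D2' : S_D1 → S_D2 := by
  intro hD1 p _ s d hS U hU hμ
  have hpr := (Fact.out : p.Prime)
  have hs := hS.sq
  have hd : d ≠ 0 := hS.pos.ne'
  let L : IntermediateField (KK s) QB := IntermediateField.fixedField U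
  have hfix : L.fixingSubgroup = U :=
    InfiniteGalois.fixingSubgroup_fixedField ⟨U, U.isClosed_of_isOpen hU⟩
  have hfd : FiniteDimensional (KK s) L := (InfiniteGalois.isOpen_iff_finite L).1 (by
    rw [hfix]; exact hU)
  have hfr : Module.finrank (KK s) L = U.index := by
    rw [IntermediateField.finrank_eq_fixingSubgroup_index, hfix]
  have hKfd : FiniteDimensional ℚ (KK s) := Module.finite_of_finrank_pos (by
    rw [finrank_KK hs hd]; norm_num)
  have hLfd : FiniteDimensional ℚ L := FiniteDimensional.trans ℚ (KK s) L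
  have hLr : Module.finrank ℚ L = 2 * U.index := by
    rw [← hfr, ← finrank_KK hs hd, Module.finrank_mul_finrank]
  have hNF : NumberField L := { to_charZero := inferInstance, to_finiteDimensional := hLfd }
  let sL : L := algebraMap (KK s) L ⟨s, i₀_mem⟩
  have hsL : (sL : QB) = s := rfl
  have hsL2 : sL ^ 2 = -(d : L) := by
    apply Subtype.ext
    push_cast
    rw [hsL, hs]
  have hcpx : NumberField.InfinitePlace.nrRealPlaces L = 0 := by
    classical
    have hE : IsEmpty {w : NumberField.InfinitePlace L // w.IsReal} := by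
      refine ⟨fun w => ?_⟩
      have h1 : (NumberField.InfinitePlace.embedding_of_isReal w.2 sL) ^ 2 = -(d : ℝ) := by
        rw [← map_pow, hsL2, map_neg, map_natCast]
      have h3 : (0 : ℝ) < d := by exact_mod_cast Nat.pos_of_ne_zero hd
      nlinarith [sq_nonneg (NumberField.InfinitePlace.embedding_of_isReal w.2 sL)]
    unfold NumberField.InfinitePlace.nrRealPlaces
    rw [Fintype.card_eq_zero_iff]
    exact hE
  -- the root of unity
  have : NeZero ((p : ℕ) : QB) := ⟨by exact_mod_cast hpr.ne_zero⟩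
  obtain ⟨ζ, hζ⟩ : ∃ ζ : QB, IsPrimitiveRoot ζ p := HasEnoughRootsOfUnity.exists_primitiveRoot _ _
  have hζL : ∃ ζ : L, IsPrimitiveRoot ζ p := by
    refine ⟨⟨ζ, fun σ => hμ σ σ.2 ζ hζ.pow_eq_one⟩, ?_⟩
    exact IsPrimitiveRoot.of_map_of_injective (f := L.val) hζ L.val.injective
  -- the two embeddings
  obtain ⟨ι⟩ : Nonempty (QB →ₐ[ℚ] PadicAlgCl p) :=
    ⟨IsAlgClosed.lift (R := ℚ) (S := QB) (M := AlgebraicClosure ℚ_[p])⟩
  obtain ⟨c, hc⟩ := exists_conj hs hd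
  obtain ⟨r, hr, hιs⟩ : ∃ r : ℚ_[p], r ^ 2 = -(d : ℚ_[p]) ∧ ι s = (r : PadicAlgCl p) := by
    obtain ⟨r, hr⟩ := hS.loc
    have h1 : (ι s) ^ 2 = ((r : ℚ_[p]) : PadicAlgCl p) ^ 2 := by
      have h2 : ((r : ℚ_[p]) : PadicAlgCl p) ^ 2 = ((r ^ 2 : ℚ_[p]) : PadicAlgCl p) := by
        show (algebraMap ℚ_[p] (PadicAlgCl p) r) ^ 2 = algebraMap ℚ_[p] (PadicAlgCl p) (r ^ 2)
        rw [map_pow]
      rw [h2, hr, ← map_pow, hs, map_neg, map_natCast]
      show _ = algebraMap ℚ_[p] (PadicAlgCl p) (-(d : ℚ_[p]))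
      rw [map_neg, map_natCast]
    rcases sq_eq_sq_iff_eq_or_eq_neg.1 h1 with h | h
    · exact ⟨r, hr, h⟩
    · refine ⟨-r, by rw [neg_sq]; exact hr, ?_⟩
      rw [h]
      show _ = algebraMap ℚ_[p] (PadicAlgCl p) (-r)
      rw [map_neg]
  let j₁ : L →+* PadicAlgCl p := (ι : QB →+* PadicAlgCl p).comp (L.val : L →+* QB)
  let j₂ : L →+* PadicAlgCl p :=
    (ι : QB →+* PadicAlgCl p).comp ((c : QB →+* QB).comp (L.val : L →+* QB))
  have hj₁ : j₁ sL = (r : PadicAlgCl p) := hιs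
  have hj₂ : j₂ sL = -(r : PadicAlgCl p) := by
    show ι (c s) = _
    rw [hc, map_neg, hιs]
  obtain ⟨t, n, ht1, ht2, ht3, ht4⟩ := sep hS.odd hd hr
  obtain ⟨b₁, hb₁⟩ := ht1
  obtain ⟨b₂, hb₂⟩ := ht2
  have hpL : (p : L) ≠ 0 := by exact_mod_cast hpr.ne_zero
  have hwint : IsIntegral ℤ (((t : L) - sL) / (p : L) ^ n) := by
    refine ⟨X ^ 2 - C b₁ * X + C b₂, by monicity!, ?_⟩
    have e1 : (2 : L) * t = (p : L) ^ n * b₁ := by exact_mod_cast congrArg (Int.cast (R := L)) hb₁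
    have e2 : (t : L) ^ 2 + d = (p : L) ^ (2 * n) * b₂ := by
      exact_mod_cast congrArg (Int.cast (R := L)) hb₂
    rw [eval₂_add, eval₂_sub, eval₂_mul, eval₂_pow, eval₂_X, eval₂_C, eval₂_C, eq_intCast,
      eq_intCast]
    have hpn : (p : L) ^ n ≠ 0 := pow_ne_zero _ hpL
    rw [two_mul, pow_add] at e2
    field_simp
    linear_combination hsL2 + ((t : L) - sL) * e1 - e2
  let w : NumberField.RingOfIntegers L := ⟨((t : L) - sL) / (p : L) ^ n, hwint⟩
  have hcast : ∀ c : ℚ_[p], (c : PadicAlgCl p) = algebraMap ℚ_[p] (PadicAlgCl p) c := fun _ => rfl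
  have hw1 : w ∈ PI j₁ := by
    rw [mem_PI]
    show ‖j₁ (((t : L) - sL) / (p : L) ^ n)‖ < 1
    have e : j₁ (((t : L) - sL) / (p : L) ^ n) =
        ((((t : ℚ_[p]) - r) / (p : ℚ_[p]) ^ n : ℚ_[p]) : PadicAlgCl p) := by
      rw [map_div₀, map_sub, map_pow, map_natCast, map_intCast, hj₁, hcast, hcast, map_div₀,
        map_sub, map_pow, map_natCast, map_intCast]
    rw [e, PadicAlgCl.norm_extends]
    exact ht3
  have hw2 : w ∉ PI j₂ := by
    rw [mem_PI]
    show ¬ ‖j₂ (((t : L) - sL) / (p : L) ^ n)‖ < 1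
    have e : j₂ (((t : L) - sL) / (p : L) ^ n) =
        ((((t : ℚ_[p]) + r) / (p : ℚ_[p]) ^ n : ℚ_[p]) : PadicAlgCl p) := by
      rw [map_div₀, map_sub, map_pow, map_natCast, map_intCast, hj₂, hcast, hcast, map_div₀,
        map_add, map_pow, map_natCast, map_intCast, sub_neg_eq_add]
    rw [e, PadicAlgCl.norm_extends, ht4]
    exact lt_irrefl _
  have hne : PI j₁ ≠ PI j₂ := by
    intro h
    rw [h] at hw1
    exact hw2 hw1
  obtain ⟨u, hu0, hu2, huS⟩ := hD1 p hS.odd L U.index hLr hcpx hζL (PI j₁) (PI j₂) (PI_prime j₁)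
    (PI_prime j₂) hne (PI_p j₁) (PI_p j₂)
  refine ⟨fun i => (u i : QB), ?_, ?_, ?_⟩
  · intro i σ hσ
    exact (u i).2 ⟨σ, hσ⟩
  · intro i
    obtain ⟨m, h1, h2⟩ := hu2 i
    refine ⟨fun h => hu0 i (Subtype.ext h), m, ?_, ?_⟩
    · exact h1.map (L.val.restrictScalars ℤ)
    · exact h2.map (L.val.restrictScalars ℤ)
  · rintro e ⟨y, hy, hye⟩
    apply huS e
    refine ⟨⟨y, fun σ => hy σ σ.2⟩, ?_⟩
    apply Subtype.ext
    push_cast
    exact hye

end Pool.Agent.L7h22.SG.D2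

theorem Pool.Agent.L7h22.SG.s_D2 : Pool.Agent.L7h48.SG.S_D1 → Pool.Agent.L7h48.SG.S_D2 :=
  Pool.Agent.L7h22.SG.D2.s_D2'
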