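import Pool.Agent.L7h48.SG.Stm
import Pool.Agent.L7h60.SG.Kum

/-!
# Project SG, [E2]: counting the homomorphisms to `ZMod p`

Port of `Pool.Agent.K7.H82.PS.E2` (by another member of the team) from `2` to odd `p`.
-/

set_option autoImplicit false

namespace Pool.Agent.L7h22.SG.E2

open Pool.Agent.L7h48.SG Pool.Agent.L7h60.SG
open Pool.Agent.Y715.Gi (QB KK GK)
open Pool.Agent.Y715.Nr
open Pool.Agent.Y715.Df (Cmp)
open Pool.Agent.Z384 (II DD DDs)

variable {p : ℕ} [Fact p.Prime] {s : QB}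

lemma lc_inv {G X : Type} [Group G] [TopologicalSpace G] [IsTopologicalGroup G] {φ : G → X}
    {W : Set G} (hW : IsOpen W) (h1 : (1 : G) ∈ W) (h : ∀ g, ∀ w ∈ W, φ (g * w) = φ g) :
    IsLocallyConstant φ := by
  refine (IsLocallyConstant.iff_exists_open _).2 fun g => ?_
  refine ⟨(fun x => g⁻¹ * x) ⁻¹' W, hW.preimage (continuous_const.mul continuous_id), by simpa using h1,
    fun x hx => ?_⟩
  have h3 := h g _ hx
  rwa [mul_inv_cancel_left] at h3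

/-- the stabilisers are open -/
lemma stab_open (x : QB) : IsOpen {σ : GK s | σ x = x} := by
  have hfd : FiniteDimensional (KK s) (IntermediateField.adjoin (KK s) {x}) :=
    IntermediateField.adjoin.finiteDimensional (Algebra.IsIntegral.isIntegral x)
  have h := IntermediateField.fixingSubgroup_isOpen (IntermediateField.adjoin (KK s) {x})
  have e : {σ : GK s | σ x = x} =
      ((IntermediateField.adjoin (KK s) {x}).fixingSubgroup : Set (GK s)) := by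
    ext σ
    constructor
    · intro hσ
      show σ ∈ (IntermediateField.adjoin (KK s) {x}).fixingSubgroup
      rw [← Subgroup.zpowers_le, ← IntermediateField.le_iff_le, IntermediateField.adjoin_le_iff]
      rintro y hy
      rw [Set.mem_singleton_iff] at hy
      subst hy
      rintro ⟨τ, hτ⟩
      have h3 : τ ∈ MulAction.stabilizer (GK s) y := by
        have h4 : Subgroup.zpowers σ ≤ MulAction.stabilizer (GK s) y :=
          Subgroup.zpowers_le.2 (MulAction.mem_stabilizer_iff.2 hσ)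
        exact h4 hτ
      exact MulAction.mem_stabilizer_iff.1 h3
    · intro hσ
      exact (IntermediateField.mem_fixingSubgroup_iff _ σ).1 hσ x
        (IntermediateField.mem_adjoin_simple_self (KK s) x)
  rw [e]
  exact h

lemma zc_mul {ζ : QB} (h : ζ ^ p = 1) (n : ℕ) (a : ZMod p) : zc ζ ((n : ZMod p) * a) = zc ζ a ^ n := by
  induction n with
  | zero => rw [Nat.cast_zero, zero_mul, zc_zero, pow_zero]
  | succ n ih =>
    rw [Nat.cast_succ, add_mul, one_mul, zc_add h, ih, pow_succ]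

/-! ### Kummer characters -/

/-- the data of a Kummer character -/
structure KD (p : ℕ) [Fact p.Prime] (ζ : QB) (U : Subgroup (GK s)) (x : QB) : Prop where
  prim : IsPrimitiveRoot ζ p
  mu : ∀ σ ∈ U, σ ζ = ζ
  ne : x ≠ 0
  fix : ∀ σ ∈ U, σ (x ^ p) = x ^ p

open Classical in
/-- the Kummer character -/
noncomputable def kc (p : ℕ) (ζ : QB) (U : Subgroup (GK s)) (x : QB) (σ : GK s) : ZMod p :=
  if h : σ ∈ U ∧ ∃ a : ZMod p, σ x = zc ζ a * x then h.2.choose else 0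

lemma kc_spec {ζ : QB} {U : Subgroup (GK s)} {x : QB} (K : KD p ζ U x) {σ : GK s} (hσ : σ ∈ U) :
    σ x = zc ζ (kc p ζ U x σ) * x := by
  have h : ∃ a : ZMod p, σ x = zc ζ a * x := by
    have h1 : (σ x / x) ^ p = 1 := by
      rw [div_pow, ← map_pow, K.fix σ hσ, div_self (pow_ne_zero p K.ne)]
    obtain ⟨a, ha⟩ := exists_zc K.prim h1
    exact ⟨a, by rw [← ha, div_mul_cancel₀ _ K.ne]⟩
  have h2 : σ ∈ U ∧ ∃ a : ZMod p, σ x = zc ζ a * x := ⟨hσ, h⟩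
  unfold kc
  rw [dif_pos h2]
  exact h2.2.choose_spec

lemma kc_uniq {ζ : QB} {U : Subgroup (GK s)} {x : QB} (K : KD p ζ U x) {σ : GK s} (hσ : σ ∈ U)
    {a : ZMod p} (h : σ x = zc ζ a * x) : kc p ζ U x σ = a := by
  have h1 := kc_spec K hσ
  rw [h] at h1
  exact (zc_inj K.prim (mul_right_cancel₀ K.ne h1)).symm

lemma kc_out {ζ : QB} {U : Subgroup (GK s)} {x : QB} {σ : GK s} (hσ : σ ∉ U) :
    kc p ζ U x σ = 0 := by
  unfold kc
  rw [dif_neg]
  exact fun h => hσ h.1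

lemma kc_eq_zero {ζ : QB} {U : Subgroup (GK s)} {x : QB} (K : KD p ζ U x) {σ : GK s} (hσ : σ ∈ U) :
    kc p ζ U x σ = 0 ↔ σ x = x := by
  constructor
  · intro h
    rw [kc_spec K hσ, h, zc_zero, one_mul]
  · intro h
    apply kc_uniq K hσ
    rw [h, zc_zero, one_mul]

lemma kc_mul {ζ : QB} {U : Subgroup (GK s)} {x : QB} (K : KD p ζ U x) {σ τ : GK s} (hσ : σ ∈ U)
    (hτ : τ ∈ U) : kc p ζ U x (σ * τ) = kc p ζ U x σ + kc p ζ U x τ := by
  apply kc_uniq K (U.mul_mem hσ hτ)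
  rw [AlgEquiv.mul_apply, kc_spec K hτ, map_mul, map_zc σ (K.mu σ hσ), kc_spec K hσ,
    zc_add K.prim.pow_eq_one]
  ring

lemma kc_mem {ζ : QB} {U : Subgroup (GK s)} (hU : IsOpen (U : Set (GK s))) {x : QB}
    (K : KD p ζ U x) : kc p ζ U x ∈ HP p U := by
  refine ⟨?_, fun σ hσ τ hτ => kc_mul K hσ hτ, fun σ hσ => kc_out hσ⟩
  refine lc_inv (W := (U : Set (GK s)) ∩ {σ : GK s | σ x = x}) (hU.inter (stab_open x))
    ⟨U.one_mem, rfl⟩ ?_
  rintro g w ⟨hw, hwx⟩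
  by_cases hg : g ∈ U
  · rw [kc_mul K hg hw, (kc_eq_zero K hw).2 hwx, add_zero]
  · rw [kc_out hg, kc_out (fun h => hg ((U.mul_mem_cancel_right hw).1 h))]

/-- products of roots -/
lemma kc_prod {ζ : QB} {U : Subgroup (GK s)} {n : ℕ} {x : Fin n → QB} (K : ∀ i, KD p ζ U (x i))
    (hζ : ζ ^ p = 1) (e : Fin n → ℕ) {σ : GK s} (hσ : σ ∈ U) :
    σ (∏ i, x i ^ e i) = zc ζ (∑ i, (e i : ZMod p) * kc p ζ U (x i) σ) * ∏ i, x i ^ e i := by
  rw [map_prod, zc_sum hζ, ← Finset.prod_mul_distrib]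
  refine Finset.prod_congr rfl fun i _ => ?_
  rw [map_pow, kc_spec (K i) hσ, mul_pow, zc_mul hζ]

/-! ### The spaces of characters -/

/-- the characters of `U` which are trivial on `Nf` -/
def XX (p : ℕ) [Fact p.Prime] (𝓛 U : Subgroup (GK s)) : Submodule (ZMod p) (GK s → ZMod p) where
  carrier := {φ | φ ∈ HP p U ∧ ∀ σ ∈ Nf p 𝓛, φ σ = 0}
  add_mem' := by
    rintro φ ψ ⟨h1, h2⟩ ⟨h3, h4⟩
    exact ⟨add_mem h1 h3, fun σ hσ => by rw [Pi.add_apply, h2 σ hσ, h4 σ hσ, add_zero]⟩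
  zero_mem' := ⟨zero_mem _, fun _ _ => rfl⟩
  smul_mem' := by
    rintro a φ ⟨h1, h2⟩
    exact ⟨Submodule.smul_mem _ a h1, fun σ hσ => by rw [Pi.smul_apply, h2 σ hσ, smul_zero]⟩

variable {𝓛 U : Subgroup (GK s)}

/-- density -/
lemma dens {ι₀ : QB →ₐ[ℚ] PadicAlgCl p}
    (hD : ∀ U : Subgroup (GK s), IsOpen (U : Set (GK s)) → Nf p 𝓛 ≤ U →
      ∀ g : GK s, ∃ δ ∈ DDs ι₀, δ⁻¹ * g ∈ U)
    (hU : IsOpen (U : Set (GK s))) (hN : Nf p 𝓛 ≤ U) {φ : GK s → ZMod p} (hφ : φ ∈ XX p 𝓛 U)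
    (h : ∀ σ ∈ DDs ι₀, σ ∈ U → φ σ = 0) : φ = 0 := by
  obtain ⟨hφ, hφN⟩ := hφ
  have hWo := isOpen_Kr p hU hφ
  have hWN : Nf p 𝓛 ≤ Kr p hφ := fun σ hσ => ⟨hN hσ, hφN σ hσ⟩
  funext g
  by_cases hg : g ∈ U
  · obtain ⟨δ, hδ, hw⟩ := hD _ hWo hWN g
    rw [mem_Kr] at hw
    have hδU : δ ∈ U := by
      have e : δ = g * (δ⁻¹ * g)⁻¹ := by group
      rw [e]
      exact U.mul_mem hg (U.inv_mem hw.1)
    have e : g = δ * (δ⁻¹ * g) := by group
    rw [e, HP.mul p hφ hδU hw.1, hw.2, h δ hδ hδU, add_zero]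
    rfl
  · exact hφ.2.2 g hg

/-- the index of the inverse image -/
lemma index_comap {ι₀ : QB →ₐ[ℚ] PadicAlgCl p}
    (hD : ∀ U : Subgroup (GK s), IsOpen (U : Set (GK s)) → Nf p 𝓛 ≤ U →
      ∀ g : GK s, ∃ δ ∈ DDs ι₀, δ⁻¹ * g ∈ U)
    (hU : IsOpen (U : Set (GK s))) (hN : Nf p 𝓛 ≤ U) {r : Au p →* GK s} (hr : r.range = DDs ι₀) :
    (U.comap r).index = U.index := by
  have hb : Function.Bijective (fun v : Au p ⧸ U.comap r => Quotient.liftOn' v
      (fun τ => (QuotientGroup.mk (r τ) : GK s ⧸ U)) (by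
        intro a b hab
        rw [QuotientGroup.leftRel_apply] at hab
        refine QuotientGroup.eq.2 ?_
        rw [← map_inv, ← map_mul]
        exact hab)) := by
    constructor
    · intro a b
      induction a using QuotientGroup.induction_on with
      | H a =>
      induction b using QuotientGroup.induction_on with
      | H b =>
      intro h
      have h1 : (QuotientGroup.mk (r a) : GK s ⧸ U) = QuotientGroup.mk (r b) := h
      rw [QuotientGroup.eq, ← map_inv, ← map_mul] at h1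
      exact QuotientGroup.eq.2 h1
    · intro c
      induction c using QuotientGroup.induction_on with
      | H c =>
      obtain ⟨δ, hδ, hδc⟩ := hD U hU hN c
      rw [← hr] at hδ
      obtain ⟨τ, rfl⟩ := hδ
      exact ⟨QuotientGroup.mk τ, QuotientGroup.eq.2 hδc⟩
  exact Nat.card_eq_of_bijective _ hb

/-- restriction to the local Galois group -/
noncomputable def rst (r : Au p →* GK s) : (GK s → ZMod p) →ₗ[ZMod p] (Au p → ZMod p) where
  toFun φ v := φ (r v)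
  map_add' _ _ := rfl
  map_smul' _ _ := rfl

lemma rst_mem {r : Au p →* GK s} (hr : Continuous r) {φ : GK s → ZMod p} (hφ : φ ∈ HP p U) :
    rst r φ ∈ HP p (U.comap r) := by
  refine ⟨hφ.1.comp_continuous hr, ?_, fun x hx => hφ.2.2 _ hx⟩
  intro x hx y hy
  show φ (r (x * y)) = φ (r x) + φ (r y)
  rw [map_mul]
  exact hφ.2.1 _ hx _ hy

lemma punit_prod {n : ℕ} {u : Fin n → QB} (h : ∀ i, PUnit p (u i)) (e : Fin n → ℕ) :
    PUnit p (∏ i, u i ^ e i) := by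
  choose h0 k hk hk' using h
  refine ⟨Finset.prod_ne_zero_iff.2 fun i _ => pow_ne_zero _ (h0 i), ∑ i, k i * e i, ?_, ?_⟩
  · have e1 : (p : QB) ^ (∑ i, k i * e i) * ∏ i, u i ^ e i = ∏ i, (p ^ k i * u i) ^ e i := by
      rw [← Finset.prod_pow_eq_pow_sum, ← Finset.prod_mul_distrib]
      refine Finset.prod_congr rfl fun i _ => ?_
      rw [mul_pow, ← pow_mul]
    rw [e1]
    exact IsIntegral.prod _ fun i _ => (hk i).pow _
  · have e1 : (p : QB) ^ (∑ i, k i * e i) * (∏ i, u i ^ e i)⁻¹ = ∏ i, (p ^ k i * (u i)⁻¹) ^ e i := by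
      rw [← Finset.prod_pow_eq_pow_sum, ← Finset.prod_inv_distrib, ← Finset.prod_mul_distrib]
      refine Finset.prod_congr rfl fun i _ => ?_
      rw [mul_pow, ← pow_mul, inv_pow]
    rw [e1]
    exact IsIntegral.prod _ fun i _ => (hk' i).pow _

/-- the Kummer characters of the `p`-units -/
lemma kum_mem (h4 : ∀ U : Subgroup (GK s), IsOpen (U : Set (GK s)) → Nf p 𝓛 ≤ U → U ≤ 𝓛 →
      ∀ φ ∈ HP p U, (∀ σ ∈ U, Ram p σ → φ σ = 0) → ∀ σ ∈ Nf p 𝓛, φ σ = 0) (hD3 : S_D3)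
    (hU : IsOpen (U : Set (GK s))) (hN : Nf p 𝓛 ≤ U) (hL : U ≤ 𝓛) {ζ x : QB}
    (hu : PUnit p (x ^ p)) (K : KD p ζ U x) : kc p ζ U x ∈ XX p 𝓛 U := by
  refine ⟨kc_mem hU K, h4 U hU hN hL _ (kc_mem hU K) ?_⟩
  rintro σ hσ ⟨q, hq, ι, hqp, hσι⟩
  refine (kc_eq_zero K hσ).2 (hD3 p s q ι hqp σ hσι x 1 ?_ ?_)
  · simpa using hu
  · simpa using K.fix σ hσ

theorem core (hC : S_C2) (hDD : S_D2) (hD3 : S_D3) (hE0 : S_E0) (hE1 : S_E1) {d : ℕ}
    (hS : Spl p s d) (ι₀ : QB →ₐ[ℚ] PadicAlgCl p) (hLev : Lev p 𝓛 ι₀)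
    (hU : IsOpen (U : Set (GK s))) (hN : Nf p 𝓛 ≤ U) (hL : U ≤ 𝓛) {ζ : QB}
    (hζ : IsPrimitiveRoot ζ p) :
    ∃ r : Au p →* GK s, Continuous r ∧ r.range = DDs ι₀ ∧
      Module.Finite (ZMod p) (XX p 𝓛 U) ∧ Module.finrank (ZMod p) (XX p 𝓛 U) = U.index + 2 ∧
      (∀ ψ ∈ HP p (U.comap r), ∃ φ ∈ XX p 𝓛 U, rst r φ = ψ) ∧
      (∀ φ ∈ XX p 𝓛 U, ∃ x : QB, PUnit p (x ^ p) ∧ ∀ σ ∈ U, σ x = ζ ^ (φ σ).val * x) := by
  classical
  have hpr := (Fact.out : p.Prime)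
  obtain ⟨-, -, -, -, -, -, -, -, -, h4, h5, -⟩ := hE0 p s d hS ι₀ 𝓛 hLev
  obtain ⟨r, hrc, hrC, hrr⟩ := hE1 p s d hS ι₀
  have hV : IsOpen (U.comap r : Set (Au p)) := hU.preimage hrc
  have hμ : ∀ σ ∈ U, ∀ ζ : QB, ζ ^ p = 1 → σ ζ = ζ := fun σ hσ => hLev.mu σ (hL hσ)
  have hμV : ∀ τ ∈ U.comap r, ∀ ξ : PadicAlgCl p, ξ ^ p = 1 → τ ξ = ξ := by
    intro τ hτ ξ hξ
    have h1 : IsPrimitiveRoot (ι₀ ζ) p := hζ.map_of_injective ι₀.toRingHom.injective
    obtain ⟨a, ha⟩ := exists_zc h1 hξ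
    have h2 : τ (ι₀ ζ) = ι₀ ζ := by
      have h3 := hrC τ ζ
      rw [hμ _ hτ ζ hζ.pow_eq_one] at h3
      exact h3
    rw [ha]
    exact map_zc τ h2 a
  obtain ⟨hfin, hle⟩ := hC p hS.odd (U.comap r) hV hμV
  rw [index_comap h5 hU hN hrr] at hle
  set f : XX p 𝓛 U →ₗ[ZMod p] HP p (U.comap r) :=
    ((rst r).comp (XX p 𝓛 U).subtype).codRestrict _ (fun φ => rst_mem hrc φ.2.1) with hf
  have hfi : Function.Injective f := by
    rw [← LinearMap.ker_eq_bot, LinearMap.ker_eq_bot']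
    rintro ⟨φ, hφ⟩ h
    have h1 : rst r φ = 0 := congrArg Subtype.val h
    apply Subtype.ext
    show φ = 0
    refine dens h5 hU hN hφ ?_
    rintro σ hσD hσ
    rw [← hrr] at hσD
    obtain ⟨τ, hτ⟩ := hσD
    subst hτ
    exact congrFun h1 τ
  have hfX : Module.Finite (ZMod p) (XX p 𝓛 U) := Module.Finite.of_injective f hfi
  have hle2 : Module.finrank (ZMod p) (XX p 𝓛 U) ≤ Module.finrank (ZMod p) (HP p (U.comap r)) :=
    LinearMap.finrank_le_finrank_of_injective hfi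
  obtain ⟨u, hu1, hu2, hu3⟩ := hDD p s d hS U hU hμ
  choose x hx using fun i => IsAlgClosed.exists_pow_nat_eq (u i) hpr.pos
  have hx2 : ∀ i, ∀ σ ∈ U, σ (x i ^ p) = x i ^ p := fun i σ hσ => by rw [hx i]; exact hu1 i σ hσ
  have hxu : ∀ i, PUnit p (x i ^ p) := fun i => by rw [hx i]; exact hu2 i
  have hx0 : ∀ i, x i ≠ 0 := fun i h => (hxu i).1 (by rw [h, zero_pow hpr.ne_zero])
  have K : ∀ i, KD p ζ U (x i) := fun i =>
    ⟨hζ, fun σ hσ => hμ σ hσ ζ hζ.pow_eq_one, hx0 i, hx2 i⟩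
  have hkm : ∀ i, kc p ζ U (x i) ∈ XX p 𝓛 U := fun i => kum_mem h4 hD3 hU hN hL (hxu i) (K i)
  set v : Fin (U.index + 2) → XX p 𝓛 U := fun i => ⟨kc p ζ U (x i), hkm i⟩ with hv
  have hval : ∀ (g : Fin (U.index + 2) → ZMod p) (φ : XX p 𝓛 U), ∑ i, g i • v i = φ →
      ∀ σ, ∑ i, (((g i).val : ℕ) : ZMod p) * kc p ζ U (x i) σ = φ.1 σ := by
    intro g φ hg σ
    have h1 := congrFun (congrArg (XX p 𝓛 U).subtype hg) σ
    rw [map_sum, Finset.sum_apply] at h1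
    have h2 : (XX p 𝓛 U).subtype φ σ = φ.1 σ := rfl
    rw [← h2, ← h1]
    refine Finset.sum_congr rfl fun i _ => ?_
    rw [ZMod.natCast_zmod_val]
    rfl
  have hpow : ∀ e : Fin (U.index + 2) → ℕ, (∏ i, x i ^ e i) ^ p = ∏ i, u i ^ e i := by
    intro e
    rw [← Finset.prod_pow]
    refine Finset.prod_congr rfl fun i _ => ?_
    rw [← pow_mul, mul_comm, pow_mul, hx i]
  have hvi : LinearIndependent (ZMod p) v := by
    rw [Fintype.linearIndependent_iff]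
    intro g hg i
    have h1 := hu3 (fun i => (g i).val) ⟨∏ i, x i ^ (g i).val, ?_, hpow _⟩ i
    · have h2 : (((g i).val : ℕ) : ZMod p) = 0 := (ZMod.natCast_eq_zero_iff _ _).2 h1
      rwa [ZMod.natCast_zmod_val] at h2
    · intro σ hσ
      rw [kc_prod K hζ.pow_eq_one _ hσ, hval g 0 hg σ]
      show zc ζ (0 : ZMod p) * _ = _
      rw [zc_zero, one_mul]
  have hge := hvi.fintype_card_le_finrank
  rw [Fintype.card_fin] at hge
  have hfr : Module.finrank (ZMod p) (XX p 𝓛 U) = U.index + 2 := by omega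
  have hfr2 : Module.finrank (ZMod p) (XX p 𝓛 U) = Module.finrank (ZMod p) (HP p (U.comap r)) := by
    omega
  have hfs : Function.Surjective f :=
    (LinearMap.injective_iff_surjective_of_finrank_eq_finrank hfr2).1 hfi
  refine ⟨r, hrc, hrr, hfX, hfr, ?_, ?_⟩
  · intro ψ hψ
    obtain ⟨φ, hφ⟩ := hfs ⟨ψ, hψ⟩
    exact ⟨φ, φ.2, congrArg Subtype.val hφ⟩
  · intro φ hφ
    have hsp : Submodule.span (ZMod p) (Set.range v) = ⊤ :=
      hvi.span_eq_top_of_card_eq_finrank (by rw [Fintype.card_fin, hfr])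
    have h1 : (⟨φ, hφ⟩ : XX p 𝓛 U) ∈ Submodule.span (ZMod p) (Set.range v) := by
      rw [hsp]; trivial
    obtain ⟨g, hg⟩ := (Submodule.mem_span_range_iff_exists_fun (ZMod p)).1 h1
    refine ⟨∏ i, x i ^ (g i).val, ?_, fun σ hσ => ?_⟩
    · rw [hpow]
      exact punit_prod hu2 _
    · rw [kc_prod K hζ.pow_eq_one _ hσ, hval g _ hg σ]
      rfl

/-! ### The quotient -/

section quo

variable (U' : Subgroup (Gs p 𝓛))

/-- the inverse image -/
noncomputable abbrev pb : Subgroup (GK s) := U'.comap (QuotientGroup.mk' (Nf p 𝓛))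

lemma pb_open (h : IsOpen (U' : Set (Gs p 𝓛))) : IsOpen (pb U' : Set (GK s)) :=
  h.preimage QuotientGroup.continuous_mk

lemma pb_le : Nf p 𝓛 ≤ pb U' := by
  intro σ hσ
  show (QuotientGroup.mk σ : Gs p 𝓛) ∈ U'
  rw [(QuotientGroup.eq_one_iff σ).2 hσ]
  exact one_mem U'

/-- pull back of characters -/
noncomputable def pbl : (Gs p 𝓛 → ZMod p) →ₗ[ZMod p] (GK s → ZMod p) where
  toFun φ σ := φ (QuotientGroup.mk σ)
  map_add' _ _ := rfl
  map_smul' _ _ := rfl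

lemma pbl_mem {φ : Gs p 𝓛 → ZMod p} (hφ : φ ∈ HP p U') : pbl φ ∈ XX p 𝓛 (pb U') := by
  refine ⟨⟨hφ.1.comp_continuous QuotientGroup.continuous_mk, fun x hx y hy => ?_,
    fun x hx => hφ.2.2 _ hx⟩, fun σ hσ => ?_⟩
  · exact hφ.2.1 _ hx _ hy
  · show φ (QuotientGroup.mk σ) = 0
    rw [(QuotientGroup.eq_one_iff σ).2 hσ]
    exact HP.one p hφ

lemma pbl_surj {ψ : GK s → ZMod p} (hψ : ψ ∈ XX p 𝓛 (pb U')) :
    ∃ φ ∈ HP p U', pbl (𝓛 := 𝓛) φ = ψ := by
  obtain ⟨hψ, hψN⟩ := hψ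
  have hN := pb_le U'
  have key : ∀ σ, ∀ n ∈ Nf p 𝓛, ψ (σ * n) = ψ σ := by
    intro σ n hn
    by_cases hσ : σ ∈ pb U'
    · rw [hψ.2.1 σ hσ n (hN hn), hψN n hn, add_zero]
    · rw [hψ.2.2 σ hσ, hψ.2.2]
      exact fun h => hσ (((pb U').mul_mem_cancel_right (hN hn)).1 h)
  let φ : Gs p 𝓛 → ZMod p := fun a => Quotient.liftOn' a ψ (by
    intro a b hab
    rw [QuotientGroup.leftRel_apply] at hab
    have h := key a _ hab
    rw [mul_inv_cancel_left] at h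
    exact h.symm)
  have hφ : ∀ σ : GK s, φ (QuotientGroup.mk σ) = ψ σ := fun σ => rfl
  refine ⟨φ, ⟨?_, ?_, ?_⟩, ?_⟩
  · intro S
    have h1 : IsOpen (ψ ⁻¹' S) := hψ.1 S
    have h2 := QuotientGroup.isOpenMap_coe (N := Nf p 𝓛) _ h1
    convert h2 using 1
    ext a
    induction a using QuotientGroup.induction_on with
    | H a =>
    constructor
    · intro ha
      exact ⟨a, ha, rfl⟩
    · rintro ⟨b, hb, hab⟩
      show φ (QuotientGroup.mk a) ∈ S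
      rw [← hab, hφ]
      exact hb
  · intro a ha b hb
    induction a using QuotientGroup.induction_on with
    | H a =>
    induction b using QuotientGroup.induction_on with
    | H b =>
    exact hψ.2.1 a ha b hb
  · intro a ha
    induction a using QuotientGroup.induction_on with
    | H a => exact hψ.2.2 a ha
  · rfl

lemma finrank_quo : Nonempty (HP p U' ≃ₗ[ZMod p] XX p 𝓛 (pb U')) := by
  let f : HP p U' →ₗ[ZMod p] XX p 𝓛 (pb U') :=
    ((pbl (𝓛 := 𝓛)).comp (HP p U').subtype).codRestrict _ (fun φ => pbl_mem U' φ.2)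
  refine ⟨LinearEquiv.ofBijective f ⟨?_, ?_⟩⟩
  · rw [← LinearMap.ker_eq_bot, LinearMap.ker_eq_bot']
    rintro ⟨φ, hφ⟩ h0
    have h1 : pbl (𝓛 := 𝓛) φ = 0 := congrArg Subtype.val h0
    apply Subtype.ext
    show φ = 0
    ext a
    induction a using QuotientGroup.induction_on with
    | H a => exact congrFun h1 a
  · rintro ⟨ψ, hψ⟩
    obtain ⟨φ, hφ, e⟩ := pbl_surj U' hψ
    exact ⟨⟨φ, hφ⟩, Subtype.ext e⟩

end quo

/-- **[E2]** -/
theorem s_E2' : S_C2 → S_D2 → S_D3 → S_E0 → S_E1 → S_E2 := by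
  classical
  intro hC hDD hD3 hE0 hE1 p _ s d hS ι₀ 𝓛 hLev
  have hpr := (Fact.out : p.Prime)
  obtain ⟨-, -, -, -, -, -, h7, -⟩ := hE0 p s d hS ι₀ 𝓛 hLev
  refine ⟨?_, ?_, ?_⟩
  · intro U' hU' hU'P
    have hL : pb U' ≤ 𝓛 := fun σ hσ => (h7 σ).1 (hU'P hσ)
    have : NeZero ((p : ℕ) : QB) := ⟨by exact_mod_cast hpr.ne_zero⟩
    obtain ⟨ζ, hζ⟩ : ∃ ζ : QB, IsPrimitiveRoot ζ p := HasEnoughRootsOfUnity.exists_primitiveRoot _ _
    obtain ⟨r, -, -, h1, h2, -, -⟩ := core hC hDD hD3 hE0 hE1 hS ι₀ hLev (pb_open U' hU') (pb_le U')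
      hL hζ
    obtain ⟨e⟩ := finrank_quo U'
    refine ⟨Module.Finite.equiv e.symm, ?_⟩
    rw [e.finrank_eq, h2]
    congr 1
    exact Subgroup.index_comap_of_surjective U' (QuotientGroup.mk'_surjective (Nf p 𝓛))
  · intro U hU hN hL φ hφ hadd
    have : NeZero ((p : ℕ) : QB) := ⟨by exact_mod_cast hpr.ne_zero⟩
    obtain ⟨ζ, hζ⟩ : ∃ ζ : QB, IsPrimitiveRoot ζ p := HasEnoughRootsOfUnity.exists_primitiveRoot _ _
    obtain ⟨r, hrc, hrr, -, -, h3, -⟩ := core hC hDD hD3 hE0 hE1 hS ι₀ hLev hU hN hL hζ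
    obtain ⟨W, hW, hφW⟩ := hφ
    have hrD : ∀ τ, r τ ∈ DDs ι₀ := fun τ => by rw [← hrr]; exact ⟨τ, rfl⟩
    have hps : (fun τ => if r τ ∈ U then φ (r τ) else 0) ∈ HP p (U.comap r) := by
      refine ⟨?_, ?_, ?_⟩
      · refine lc_inv (W := r ⁻¹' ((U : Set (GK s)) ∩ W)) ((hU.inter hW).preimage hrc) ?_ ?_
        · show r 1 ∈ (U : Set (GK s)) ∩ W
          rw [map_one]
          exact ⟨U.one_mem, W.one_mem⟩
        · rintro g w ⟨hwU, hwW⟩
          show (if r (g * w) ∈ U then φ (r (g * w)) else 0) = if r g ∈ U then φ (r g) else 0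
          rw [map_mul]
          by_cases hg : r g ∈ U
          · rw [if_pos hg, if_pos (U.mul_mem hg hwU)]
            exact hφW _ (hrD g) _ (hrD w) hwW hg
          · rw [if_neg hg, if_neg]
            exact fun h => hg ((U.mul_mem_cancel_right hwU).1 h)
      · intro x hx y hy
        show (if r (x * y) ∈ U then φ (r (x * y)) else 0) =
          (if r x ∈ U then φ (r x) else 0) + if r y ∈ U then φ (r y) else 0
        have hx' : r x ∈ U := hx
        have hy' : r y ∈ U := hy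
        rw [map_mul, if_pos hx', if_pos hy', if_pos (U.mul_mem hx' hy')]
        exact hadd _ (hrD x) hx' _ (hrD y) hy'
      · intro x hx
        show (if r x ∈ U then φ (r x) else 0) = 0
        exact if_neg hx
    obtain ⟨φ', hφ', e⟩ := h3 _ hps
    refine ⟨φ', hφ'.1, hφ'.2, ?_⟩
    intro δ hδ hδU
    rw [← hrr] at hδ
    obtain ⟨τ, rfl⟩ := hδ
    have h4 := congrFun e τ
    have h5 : φ' (r τ) = if r τ ∈ U then φ (r τ) else 0 := h4
    rw [h5, if_pos hδU]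
  · intro ζ hζ U hU hN hL φ hφ hφN
    obtain ⟨r, -, -, -, -, -, h4⟩ := core hC hDD hD3 hE0 hE1 hS ι₀ hLev hU hN hL hζ
    exact h4 φ ⟨hφ, hφN⟩

end Pool.Agent.L7h22.SG.E2

theorem Pool.Agent.L7h22.SG.s_E2 : Pool.Agent.L7h48.SG.S_C2 → Pool.Agent.L7h48.SG.S_D2 →
    Pool.Agent.L7h48.SG.S_D3 → Pool.Agent.L7h48.SG.S_E0 → Pool.Agent.L7h48.SG.S_E1 →
    Pool.Agent.L7h48.SG.S_E2 := Pool.Agent.L7h22.SG.E2.s_E2'
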