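import Pool.Agent.L7h22.SG.Bas

/-! # Project SG: the Heisenberg lemma (HEI) -/

set_option autoImplicit false

namespace Pool.Agent.L7h22.SG

open Pool.Agent.L7h48.SG

variable {p : ℕ} [Fact p.Prime] {G : Type} [Group G] [TopologicalSpace G]

lemma choose_two_zero (hp : p ≠ 2) : ((p.choose 2 : ℕ) : ZMod p) = 0 := by
  have hpp : p.Prime := Fact.out
  rw [ZMod.natCast_eq_zero_iff]
  exact hpp.dvd_choose_self two_ne_zero (lt_of_le_of_ne hpp.two_le (Ne.symm hp))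

lemma two_ne (hp : p ≠ 2) : (2 : ZMod p) ≠ 0 := by
  have hpp : p.Prime := Fact.out
  intro h
  have h1 : ((2 : ℕ) : ZMod p) = 0 := by exact_mod_cast h
  rw [ZMod.natCast_eq_zero_iff] at h1
  exact hp ((Nat.prime_dvd_prime_iff_eq hpp Nat.prime_two).1 h1)

theorem hei_mp (hp : p ≠ 2) [IsTopologicalGroup G] {U Q : Subgroup G} (hU : IsOpen (U : Set G))
    {χ : G → ZMod p} (hχ : χ ∈ HP p U) (hQ : IsKer p U Q χ) {σ : G} (hσ : σ ∈ U) (hσ1 : χ σ = 1)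
    {b : G → ZMod p} (hb : b ∈ HP p U) (h : IsB p U (cup p χ b)) :
    ∃ ψ ∈ HP p Q, (∀ u ∈ Q, ψ (σ⁻¹ * u * σ) = ψ u + b u) ∧ ψ (σ ^ p) = 0 := by
  classical
  obtain ⟨a, ha, hab⟩ := h
  have hQo := isOpen_ker hU hχ hQ
  have hQU := ker_le hQ
  have hc : ∀ x ∈ U, ∀ y ∈ U, a (x * y) = a x + a y - χ x * b y := by
    intro x hx y hy
    have := hab x hx y hy
    simp only [cup] at this
    rw [this]
    ring
  have hQ0 : ∀ x ∈ Q, χ x = 0 := fun x hx => ((hQ x).1 hx).2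
  have hin : ∀ u ∈ Q, (fun g => if g ∈ Q then a g else 0) u = a u := fun u hu => if_pos hu
  refine ⟨fun g => if g ∈ Q then a g else 0, ⟨lc_ite hQo ha, fun x hx y hy => ?_,
    fun x hx => if_neg hx⟩, fun u hu => ?_, ?_⟩
  · rw [hin _ (Q.mul_mem hx hy), hin _ hx, hin _ hy, hc x (hQU hx) y (hQU hy), hQ0 x hx]
    ring
  · have h1 := conj_mem_ker hχ hQ hσ hu
    rw [hin _ h1, hin _ hu]
    have e1 := hc u (hQU hu) σ hσ
    rw [hQ0 u hu] at e1
    have e2 := hc σ hσ _ (hQU h1)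
    rw [hσ1, HP.conj hb hσ (hQU hu)] at e2
    have e3 : σ * (σ⁻¹ * u * σ) = u * σ := by group
    rw [e3] at e2
    linear_combination e1 - e2
  · have h1 := pow_mem_ker hχ hQ hσ
    rw [hin _ h1]
    have key : ∀ i : ℕ, a (σ ^ i) = i * a σ - (i.choose 2 : ℕ) * b σ := by
      intro i
      induction i with
      | zero =>
        have := hc 1 U.one_mem 1 U.one_mem
        rw [mul_one, HP.one hχ] at this
        have h0 : a 1 = 0 := by linear_combination -this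
        simp [h0]
      | succ i ih =>
        rw [pow_succ', hc σ hσ _ (U.pow_mem hσ i), hσ1, ih, HP.pow hb hσ, Nat.choose_succ_succ' i 1,
          Nat.choose_one_right]
        push_cast
        ring
    rw [key p, choose_two_zero hp, CharP.cast_eq_zero]
    ring

theorem hei_mpr (hp : p ≠ 2) [IsTopologicalGroup G] {U Q : Subgroup G} (hU : IsOpen (U : Set G))
    {χ : G → ZMod p} (hχ : χ ∈ HP p U) (hQ : IsKer p U Q χ) {σ : G} (hσ : σ ∈ U) (hσ1 : χ σ = 1)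
    {b : G → ZMod p} (hb : b ∈ HP p U) {ψ : G → ZMod p} (hψ : ψ ∈ HP p Q)
    (h1 : ∀ u ∈ Q, ψ (σ⁻¹ * u * σ) = ψ u + b u) (h2 : ψ (σ ^ p) = 0) :
    IsB p U (cup p χ b) := by
  classical
  have hQo := isOpen_ker hU hχ hQ
  have hQU := ker_le hQ
  have hpQ := pow_mem_ker hχ hQ hσ
  -- conjugation by powers
  have hconj : ∀ j : ℕ, ∀ u ∈ Q, ψ ((σ ^ j)⁻¹ * u * σ ^ j) = ψ u + j * b u := by
    intro j
    induction j with
    | zero => intro u hu; simp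
    | succ j ih =>
      intro u hu
      have e : (σ ^ (j + 1))⁻¹ * u * σ ^ (j + 1) = σ⁻¹ * ((σ ^ j)⁻¹ * u * σ ^ j) * σ := by
        rw [pow_succ]; group
      rw [e, h1 _ (conj_mem_ker hχ hQ (U.pow_mem hσ j) hu), ih u hu,
        HP.conj hb (U.pow_mem hσ j) (hQU hu)]
      push_cast
      ring
  -- `Ψ`
  set Ψ : G → ZMod p := fun g => ψ ((σ ^ (χ g).val)⁻¹ * g) with hΨ
  have hΨn : ∀ g ∈ U, ∀ n : ℕ, (n : ZMod p) = χ g → Ψ g = ψ ((σ ^ n)⁻¹ * g) := by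
    intro g hg n hn
    have hv : (((χ g).val : ℕ) : ZMod p) = χ g := ZMod.natCast_zmod_val _
    have hmod : (χ g).val = n % p := by
      rw [← hn, ZMod.val_natCast]
    have e : (σ ^ (χ g).val)⁻¹ * g = (σ ^ p) ^ (n / p) * ((σ ^ n)⁻¹ * g) := by
      have h3 : σ ^ n = σ ^ (p * (n / p)) * σ ^ (n % p) := by rw [← pow_add, Nat.div_add_mod]
      rw [← pow_mul, h3, hmod, mul_inv_rev]
      have h4 : (σ ^ (n % p))⁻¹ * (σ ^ (p * (n / p)))⁻¹ = (σ ^ (p * (n / p)))⁻¹ * (σ ^ (n % p))⁻¹ := by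
        rw [← mul_inv_rev, ← mul_inv_rev, ← pow_add, ← pow_add, add_comm]
      rw [h4]
      group
    show ψ ((σ ^ (χ g).val)⁻¹ * g) = _
    rw [e, HP.mul hψ (Q.pow_mem hpQ _) (coset_mem hχ hQ hσ hσ1 hg hn), HP.pow hψ hpQ, h2]
    ring
  have hΨmul : ∀ x ∈ U, ∀ y ∈ U, Ψ (x * y) = Ψ x + Ψ y + χ y * (b x - χ x * b σ) := by
    intro x hx y hy
    have hvx : (((χ x).val : ℕ) : ZMod p) = χ x := ZMod.natCast_zmod_val _
    have hvy : (((χ y).val : ℕ) : ZMod p) = χ y := ZMod.natCast_zmod_val _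
    have h5 : (((χ x).val + (χ y).val : ℕ) : ZMod p) = χ (x * y) := by
      rw [HP.mul hχ hx hy]
      push_cast
      rw [hvx, hvy]
    rw [hΨn _ (U.mul_mem hx hy) _ h5]
    have hu := coset_mem hχ hQ hσ hσ1 hx hvx
    have hw := coset_mem hχ hQ hσ hσ1 hy hvy
    have e : (σ ^ ((χ x).val + (χ y).val))⁻¹ * (x * y)
        = ((σ ^ (χ y).val)⁻¹ * ((σ ^ (χ x).val)⁻¹ * x) * σ ^ (χ y).val) * ((σ ^ (χ y).val)⁻¹ * y) := by
      rw [pow_add, mul_inv_rev]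
      group
    rw [e, HP.mul hψ (conj_mem_ker hχ hQ (U.pow_mem hσ _) hu) hw, hconj _ _ hu, hvy,
      HP.mul hb (U.inv_mem (U.pow_mem hσ _)) hx, HP.inv hb (U.pow_mem hσ _), HP.pow hb hσ, hvx]
    ring
  have hΨlc : IsLocallyConstant Ψ := by
    rw [IsLocallyConstant.iff_eventually_eq]
    intro g
    have h6 := (IsLocallyConstant.iff_eventually_eq χ).1 hχ.1 g
    have h7 : IsLocallyConstant (fun x => ψ ((σ ^ (χ g).val)⁻¹ * x)) :=
      hψ.1.comp_continuous (continuous_const.mul continuous_id)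
    filter_upwards [h6, (IsLocallyConstant.iff_eventually_eq _).1 h7 g] with x hx hx'
    show ψ ((σ ^ (χ x).val)⁻¹ * x) = ψ ((σ ^ (χ g).val)⁻¹ * g)
    rw [hx]
    exact hx'
  have h22 := two_ne (p := p) hp
  refine ⟨fun g => if g ∈ U then Ψ g - χ g * b g + χ g * (χ g + 1) * 2⁻¹ * b σ else 0, ?_,
    fun x hx y hy => ?_⟩
  · refine lc_ite hU ?_
    exact (hΨlc.sub (hχ.1.mul hb.1)).add ((hχ.1.comp (fun t => t * (t + 1) * 2⁻¹ * b σ)))
  · simp only [cup]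
    rw [if_pos hx, if_pos hy, if_pos (U.mul_mem hx hy), hΨmul x hx y hy, HP.mul hχ hx hy,
      HP.mul hb hx hy]
    have h3 : (2 : ZMod p) * 2⁻¹ = 1 := mul_inv_cancel₀ h22
    linear_combination (χ x * χ y * b σ) * h3

/-- **[HEI]** -/
theorem s_HEI : S_HEI := by
  intro p _ hp G _ _ _ U Q hU χ hχ hQ σ hσ hσ1 b hb
  exact ⟨hei_mp hp hU hχ hQ hσ hσ1 hb, fun ⟨ψ, hψ, h1, h2⟩ => hei_mpr hp hU hχ hQ hσ hσ1 hb hψ h1 h2⟩

end Pool.Agent.L7h22.SG
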