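import Pool.Agent.L7h22.SG.Bas

/-! # Project SG: Shapiro's lemma in degree one (SHO) -/

set_option autoImplicit false

namespace Pool.Agent.L7h22.SG

open Pool.Agent.L7h48.SG

variable {p : ℕ} [Fact p.Prime] {G : Type} [Group G] [TopologicalSpace G]

lemma sum_zmod {M : Type} [AddCommMonoid M] (f : ZMod p → M) :
    ∑ t, f t = ∑ i ∈ Finset.range p, f (i : ZMod p) := by
  refine Finset.sum_nbij' (fun t => t.val) (fun i => (i : ZMod p)) ?_ ?_ ?_ ?_ ?_
  · intro t _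
    exact Finset.mem_range.2 (ZMod.val_lt t)
  · intro i _
    exact Finset.mem_univ _
  · intro t _
    exact ZMod.natCast_zmod_val t
  · intro i hi
    exact ZMod.val_cast_of_lt (Finset.mem_range.1 hi)
  · intro t _
    rw [ZMod.natCast_zmod_val]

lemma IsX.lc {U : Subgroup G} {χ : G → ZMod p} {x : G → ZMod p → ZMod p} (h : IsX p U χ x) :
    IsLocallyConstant x := h.1

lemma IsX.mul {U : Subgroup G} {χ : G → ZMod p} {x : G → ZMod p → ZMod p} (h : IsX p U χ x)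
    {g k : G} (hg : g ∈ U) (hk : k ∈ U) (t : ZMod p) : x (g * k) t = x g t + x k (t + χ g) :=
  h.2 g hg k hk t

theorem sho_one [IsTopologicalGroup G] {U Q : Subgroup G} (hU : IsOpen (U : Set G))
    {χ : G → ZMod p} (hχ : χ ∈ HP p U) (hQ : IsKer p U Q χ) {σ : G} (hσ : σ ∈ U) (hσ1 : χ σ = 1)
    {φ : G → ZMod p} (hφ : φ ∈ HP p Q) : ∃ x, IsX p U χ x ∧ ∀ u ∈ Q, x u 0 = φ u := by
  classical
  have hQU := ker_le hQ
  set y : G → ZMod p → ZMod p := fun g i => φ (σ ^ i.val * g * (σ ^ (i + χ g).val)⁻¹) with hy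
  have hmem : ∀ g ∈ U, ∀ i : ZMod p, σ ^ i.val * g * (σ ^ (i + χ g).val)⁻¹ ∈ Q := by
    intro g hg i
    have h1 := U.pow_mem hσ i.val
    have h2 := U.pow_mem hσ (i + χ g).val
    rw [hQ]
    refine ⟨U.mul_mem (U.mul_mem h1 hg) (U.inv_mem h2), ?_⟩
    rw [HP.mul hχ (U.mul_mem h1 hg) (U.inv_mem h2), HP.mul hχ h1 hg, HP.inv hχ h2, HP.pow hχ hσ,
      HP.pow hχ hσ, hσ1, ZMod.natCast_zmod_val, ZMod.natCast_zmod_val]
    ring
  have hlc : IsLocallyConstant y := by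
    rw [IsLocallyConstant.iff_eventually_eq]
    intro g
    have h6 := (IsLocallyConstant.iff_eventually_eq χ).1 hχ.1 g
    have h7 : ∀ i : ZMod p, IsLocallyConstant (fun x => φ (σ ^ i.val * x * (σ ^ (i + χ g).val)⁻¹)) :=
      fun i => hφ.1.comp_continuous ((continuous_const.mul continuous_id).mul continuous_const)
    have h8 : ∀ i : ZMod p, ∀ᶠ x in nhds g, φ (σ ^ i.val * x * (σ ^ (i + χ g).val)⁻¹)
        = φ (σ ^ i.val * g * (σ ^ (i + χ g).val)⁻¹) :=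
      fun i => (IsLocallyConstant.iff_eventually_eq _).1 (h7 i) g
    filter_upwards [h6, Filter.eventually_all.2 h8] with x hx hx'
    funext i
    show φ (σ ^ i.val * x * (σ ^ (i + χ x).val)⁻¹) = φ (σ ^ i.val * g * (σ ^ (i + χ g).val)⁻¹)
    rw [hx]
    exact hx' i
  refine ⟨fun g => if g ∈ U then y g else 0, ⟨lc_ite hU hlc, fun g hg k hk t => ?_⟩, fun u hu => ?_⟩
  · beta_reduce
    rw [if_pos hg, if_pos hk, if_pos (U.mul_mem hg hk)]
    show φ (σ ^ t.val * (g * k) * (σ ^ (t + χ (g * k)).val)⁻¹) = φ (σ ^ t.val * g * (σ ^ (t + χ g).val)⁻¹)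
      + φ (σ ^ (t + χ g).val * k * (σ ^ (t + χ g + χ k).val)⁻¹)
    rw [← HP.mul hφ (hmem g hg t) (hmem k hk (t + χ g)), HP.mul hχ hg hk, ← add_assoc]
    congr 1
    group
  · beta_reduce
    rw [if_pos (hQU hu)]
    show φ (σ ^ (0 : ZMod p).val * u * (σ ^ (0 + χ u).val)⁻¹) = φ u
    rw [((hQ u).1 hu).2, add_zero, ZMod.val_zero, pow_zero]
    simp

lemma IsX.one {U : Subgroup G} {χ : G → ZMod p} (hχ : χ ∈ HP p U) {x : G → ZMod p → ZMod p}
    (h : IsX p U χ x) (t : ZMod p) : x 1 t = 0 := by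
  have := IsX.mul h U.one_mem U.one_mem t
  rw [mul_one, HP.one hχ, add_zero] at this
  simpa using this

theorem sho_two {U Q : Subgroup G}
    {χ : G → ZMod p} (hχ : χ ∈ HP p U) (hQ : IsKer p U Q χ) {σ : G} (hσ : σ ∈ U) (hσ1 : χ σ = 1)
    {x : G → ZMod p → ZMod p} (hx : IsX p U χ x) {φ : G → ZMod p}
    (h : ∀ u ∈ Q, x u 0 = φ u) :
    (∀ u ∈ Q, ∑ t, x u t = ∑ i ∈ Finset.range p, φ (σ ^ i * u * (σ ^ i)⁻¹)) ∧
      ∑ t, x σ t = φ (σ ^ p) := by
  have hQU := ker_le hQ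
  have hpow : ∀ i : ℕ, χ (σ ^ i) = i := fun i => by rw [HP.pow hχ hσ, hσ1, mul_one]
  constructor
  · intro u hu
    rw [sum_zmod]
    refine Finset.sum_congr rfl fun i _ => ?_
    have h1 := IsX.mul hx (U.pow_mem hσ i) (hQU hu) 0
    rw [zero_add, hpow] at h1
    have hq : σ ^ i * u * (σ ^ i)⁻¹ ∈ Q := by
      have h3 := conj_mem_ker hχ hQ (g := (σ ^ i)⁻¹) (U.inv_mem (U.pow_mem hσ i)) hu
      rwa [inv_inv] at h3
    have h2 := IsX.mul hx (hQU hq) (U.pow_mem hσ i) 0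
    rw [zero_add, ((hQ _).1 hq).2] at h2
    have e : σ ^ i * u * (σ ^ i)⁻¹ * σ ^ i = σ ^ i * u := by group
    rw [e] at h2
    rw [← h _ hq]
    linear_combination h2 - h1
  · rw [sum_zmod, ← h _ (pow_mem_ker hχ hQ hσ)]
    have key : ∀ n : ℕ, x (σ ^ n) 0 = ∑ i ∈ Finset.range n, x σ (i : ZMod p) := by
      intro n
      induction n with
      | zero => rw [pow_zero, Finset.range_zero, Finset.sum_empty]; exact IsX.one hχ hx 0
      | succ n ih =>
        rw [pow_succ, IsX.mul hx (U.pow_mem hσ n) hσ, ih, Finset.sum_range_succ, zero_add, hpow]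
    exact (key p).symm

theorem sho_three [IsTopologicalGroup G] {U Q : Subgroup G} (hU : IsOpen (U : Set G))
    {χ : G → ZMod p} (hχ : χ ∈ HP p U) (hQ : IsKer p U Q χ)
    {x : G → ZMod p → ZMod p} (hx : IsX p U χ x) :
    (∃ φ ∈ HP p Q, ∀ u ∈ Q, x u 0 = φ u) ∧ ∃ b ∈ HP p U, ∀ g ∈ U, ∑ t, x g t = b g := by
  classical
  have hQo := isOpen_ker hU hχ hQ
  have hQU := ker_le hQ
  constructor
  · refine ⟨fun g => if g ∈ Q then x g 0 else 0, ⟨lc_ite hQo (hx.1.comp fun f => f 0),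
      fun g hg k hk => ?_, fun g hg => if_neg hg⟩, fun u hu => (if_pos hu).symm⟩
    beta_reduce
    rw [if_pos hg, if_pos hk, if_pos (Q.mul_mem hg hk), IsX.mul hx (hQU hg) (hQU hk),
      ((hQ g).1 hg).2, add_zero]
  · refine ⟨fun g => if g ∈ U then ∑ t, x g t else 0, ⟨lc_ite hU (hx.1.comp fun f => ∑ t, f t),
      fun g hg k hk => ?_, fun g hg => if_neg hg⟩, fun u hu => (if_pos hu).symm⟩
    beta_reduce
    rw [if_pos hg, if_pos hk, if_pos (U.mul_mem hg hk)]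
    rw [Finset.sum_congr rfl fun t _ => IsX.mul hx hg hk t, Finset.sum_add_distrib]
    congr 1
    exact Equiv.sum_comp (Equiv.addRight (χ g)) (fun t => x k t)

/-- **[SHO]** -/
theorem s_SHO : S_SHO := by
  intro p _ G _ _ _ U Q hU χ hχ hQ σ hσ hσ1
  exact ⟨fun φ hφ => sho_one hU hχ hQ hσ hσ1 hφ,
    fun x hx φ _ h => sho_two hχ hQ hσ hσ1 hx h, fun x hx => sho_three hU hχ hQ hx⟩

end Pool.Agent.L7h22.SG
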