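import Pool.Agent.L7h22.SG.Bas

/-! # Project SG: Shapiro's lemma in degree two (SHT) -/

set_option autoImplicit false

namespace Pool.Agent.L7h22.SG

open Pool.Agent.L7h48.SG

variable {p : ℕ} [Fact p.Prime] {G : Type} [Group G] [TopologicalSpace G]

lemma lc_pi {ι Y : Type} [Finite ι] {X : Type} [TopologicalSpace X] {F : X → ι → Y}
    (h : ∀ i, IsLocallyConstant (fun x => F x i)) : IsLocallyConstant F := by
  rw [IsLocallyConstant.iff_eventually_eq]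
  intro x
  have h1 : ∀ i, ∀ᶠ y in nhds x, F y i = F x i :=
    fun i => (IsLocallyConstant.iff_eventually_eq _).1 (h i) x
  filter_upwards [Filter.eventually_all.2 h1] with y hy
  funext i
  exact hy i

/-- the retraction `a ↦ a σ^(-χ a)` to the kernel -/
def rho (χ : G → ZMod p) (σ : G) (a : G) : G := a * (σ ^ (χ a).val)⁻¹

omit [Fact p.Prime] in
lemma rho_cont [IsTopologicalGroup G] {χ : G → ZMod p} (hχ : IsLocallyConstant χ) (σ : G) :
    Continuous (rho χ σ) :=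
  continuous_id.mul (hχ.comp (fun t : ZMod p => (σ ^ t.val)⁻¹)).continuous

lemma rho_mem {U Q : Subgroup G} {χ : G → ZMod p} (hχ : χ ∈ HP p U)
    (hQ : IsKer p U Q χ) {σ : G} (hσ : σ ∈ U) (hσ1 : χ σ = 1) {a : G} (ha : a ∈ U) :
    rho χ σ a ∈ Q := by
  have h2 := U.pow_mem hσ (χ a).val
  rw [hQ]
  refine ⟨U.mul_mem ha (U.inv_mem h2), ?_⟩
  unfold rho
  rw [HP.mul hχ ha (U.inv_mem h2), HP.inv hχ h2, HP.pow hχ hσ, hσ1, ZMod.natCast_zmod_val]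
  ring

lemma rho_mul {U Q : Subgroup G} {χ : G → ZMod p} (hχ : χ ∈ HP p U)
    (hQ : IsKer p U Q χ) {σ u a : G} (hu : u ∈ Q) (ha : a ∈ U) :
    rho χ σ (u * a) = u * rho χ σ a := by
  unfold rho
  rw [HP.mul hχ (ker_le hQ hu) ha, ((hQ u).1 hu).2, zero_add, mul_assoc]

theorem sht [IsTopologicalGroup G] {U Q : Subgroup G}
    {χ : G → ZMod p} (hχ : χ ∈ HP p U) (hQ : IsKer p U Q χ) {σ : G} (hσ : σ ∈ U) (hσ1 : χ σ = 1)
    {E : G → G → ZMod p → ZMod p} (hE : IsLocallyConstant (fun v : G × G => E v.1 v.2))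
    (hco : ∀ x ∈ U, ∀ y ∈ U, ∀ z ∈ U, ∀ t,
        E y z (t + χ x) - E (x * y) z t + E x (y * z) t - E x y t = 0)
    (hB : IsB p Q (fun x y => E x y 0)) :
    ∃ F : G → ZMod p → ZMod p, IsLocallyConstant F ∧
        ∀ x ∈ U, ∀ y ∈ U, ∀ t, E x y t = F x t + F y (t + χ x) - F (x * y) t := by
  obtain ⟨f, hf, hfE⟩ := hB
  have hQU := ker_le hQ
  set ρ : G → G := rho χ σ with hρ
  have hρc : Continuous ρ := rho_cont hχ.1 σ
  have hρm : ∀ a ∈ U, ρ a ∈ Q := fun a ha => rho_mem hχ hQ hσ hσ1 ha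
  have hρu : ∀ u ∈ Q, ∀ a ∈ U, ρ (u * a) = u * ρ a := fun u hu a ha => rho_mul hχ hQ hu ha
  set Φ : G → G → G → ZMod p := fun a b c => E (a⁻¹ * b) (b⁻¹ * c) (χ a) with hΦ
  -- equivariance
  have hΦu : ∀ u ∈ Q, ∀ a ∈ U, ∀ b c, Φ (u * a) (u * b) (u * c) = Φ a b c := by
    intro u hu a ha b c
    show E ((u * a)⁻¹ * (u * b)) ((u * b)⁻¹ * (u * c)) (χ (u * a)) = E (a⁻¹ * b) (b⁻¹ * c) (χ a)
    rw [HP.mul hχ (hQU hu) ha, ((hQ u).1 hu).2, zero_add]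
    have e1 : (u * a)⁻¹ * (u * b) = a⁻¹ * b := by group
    have e2 : (u * b)⁻¹ * (u * c) = b⁻¹ * c := by group
    rw [e1, e2]
  -- cocycle
  have hΦc : ∀ a ∈ U, ∀ b ∈ U, ∀ c ∈ U, ∀ d ∈ U,
      Φ b c d - Φ a c d + Φ a b d - Φ a b c = 0 := by
    intro a ha b hb c hc d hd
    have h1 := hco (a⁻¹ * b) (U.mul_mem (U.inv_mem ha) hb) (b⁻¹ * c) (U.mul_mem (U.inv_mem hb) hc)
      (c⁻¹ * d) (U.mul_mem (U.inv_mem hc) hd) (χ a)
    have e1 : χ a + χ (a⁻¹ * b) = χ b := by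
      rw [HP.mul hχ (U.inv_mem ha) hb, HP.inv hχ ha]; ring
    have e2 : a⁻¹ * b * (b⁻¹ * c) = a⁻¹ * c := by group
    have e3 : b⁻¹ * c * (c⁻¹ * d) = b⁻¹ * d := by group
    rw [e1, e2, e3] at h1
    exact h1
  -- on `Q`
  have hΦQ : ∀ a ∈ Q, ∀ b ∈ Q, ∀ c ∈ Q, Φ a b c = f (a⁻¹ * b) + f (b⁻¹ * c) - f (a⁻¹ * c) := by
    intro a ha b hb c hc
    show E (a⁻¹ * b) (b⁻¹ * c) (χ a) = _
    rw [((hQ a).1 ha).2]
    have h1 := hfE (a⁻¹ * b) (Q.mul_mem (Q.inv_mem ha) hb) (b⁻¹ * c) (Q.mul_mem (Q.inv_mem hb) hc)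
    have e2 : a⁻¹ * b * (b⁻¹ * c) = a⁻¹ * c := by group
    rw [e2] at h1
    exact h1
  set Ψ : G → G → ZMod p := fun a b =>
    Φ (ρ a) a b - Φ (ρ a) (ρ b) b + f ((ρ a)⁻¹ * ρ b) with hΨ
  have key : ∀ a ∈ U, ∀ b ∈ U, ∀ c ∈ U, Φ a b c = Ψ a b + Ψ b c - Ψ a c := by
    intro a ha b hb c hc
    have ra := hQU (hρm a ha)
    have rb := hQU (hρm b hb)
    have rc := hQU (hρm c hc)
    have h1 := hΦc (ρ a) ra a ha b hb c hc
    have h2 := hΦc (ρ a) ra (ρ b) rb b hb c hc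
    have h3 := hΦc (ρ a) ra (ρ b) rb (ρ c) rc c hc
    have h4 := hΦQ (ρ a) (hρm a ha) (ρ b) (hρm b hb) (ρ c) (hρm c hc)
    simp only [hΨ]
    linear_combination h1 - h2 + h3 + h4
  have hΨu : ∀ u ∈ Q, ∀ a ∈ U, ∀ b ∈ U, Ψ (u * a) (u * b) = Ψ a b := by
    intro u hu a ha b hb
    simp only [hΨ]
    rw [hρu u hu a ha, hρu u hu b hb, hΦu u hu _ (hQU (hρm a ha)), hΦu u hu _ (hQU (hρm a ha))]
    congr 2
    group
  refine ⟨fun g t => Ψ (σ ^ t.val) (σ ^ t.val * g), lc_pi fun t => ?_, fun x hx y hy t => ?_⟩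
  · set s := σ ^ t.val with hs
    have c1 : Continuous (fun g : G => s * g) := continuous_const.mul continuous_id
    have l1 : IsLocallyConstant (fun g => Φ (ρ s) s (s * g)) := by
      have h1 : IsLocallyConstant (fun g => E ((ρ s)⁻¹ * s) (s⁻¹ * (s * g))) :=
        hE.comp_continuous (f := fun g => ((ρ s)⁻¹ * s, s⁻¹ * (s * g)))
          (continuous_const.prodMk (continuous_const.mul c1))
      exact h1.comp (fun F => F (χ (ρ s)))
    have l2 : IsLocallyConstant (fun g => Φ (ρ s) (ρ (s * g)) (s * g)) := by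
      have h1 : IsLocallyConstant (fun g => E ((ρ s)⁻¹ * ρ (s * g)) ((ρ (s * g))⁻¹ * (s * g))) :=
        hE.comp_continuous (f := fun g => ((ρ s)⁻¹ * ρ (s * g), (ρ (s * g))⁻¹ * (s * g)))
          ((continuous_const.mul (hρc.comp c1)).prodMk ((hρc.comp c1).inv.mul c1))
      exact h1.comp (fun F => F (χ (ρ s)))
    have l3 : IsLocallyConstant (fun g => f ((ρ s)⁻¹ * ρ (s * g))) :=
      hf.comp_continuous (continuous_const.mul (hρc.comp c1))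
    exact (l1.sub l2).add l3
  · beta_reduce
    set s := σ ^ t.val with hs
    set s' := σ ^ (t + χ x).val with hs'
    have hsU : s ∈ U := U.pow_mem hσ _
    have hsU' : s' ∈ U := U.pow_mem hσ _
    have hχs : χ s = t := by rw [hs, HP.pow hχ hσ, hσ1, mul_one, ZMod.natCast_zmod_val]
    have hχs' : χ s' = t + χ x := by rw [hs', HP.pow hχ hσ, hσ1, mul_one, ZMod.natCast_zmod_val]
    have h1 := key s hsU (s * x) (U.mul_mem hsU hx) (s * (x * y)) (U.mul_mem hsU (U.mul_mem hx hy))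
    have e1 : Φ s (s * x) (s * (x * y)) = E x y t := by
      show E (s⁻¹ * (s * x)) ((s * x)⁻¹ * (s * (x * y))) (χ s) = E x y t
      rw [hχs]
      have e4 : s⁻¹ * (s * x) = x := by group
      have e5 : (s * x)⁻¹ * (s * (x * y)) = y := by group
      rw [e4, e5]
    have hu : s * x * s'⁻¹ ∈ Q := by
      rw [hQ]
      refine ⟨U.mul_mem (U.mul_mem hsU hx) (U.inv_mem hsU'), ?_⟩
      rw [HP.mul hχ (U.mul_mem hsU hx) (U.inv_mem hsU'), HP.mul hχ hsU hx, HP.inv hχ hsU', hχs,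
        hχs']
      ring
    have h2 := hΨu _ hu s' hsU' (s' * y) (U.mul_mem hsU' hy)
    have e2 : s * x * s'⁻¹ * s' = s * x := by group
    have e3 : s * x * s'⁻¹ * (s' * y) = s * (x * y) := by group
    rw [e2, e3] at h2
    rw [← e1, h1, h2]

/-- **[SHT]** -/
theorem s_SHT : S_SHT := by
  intro p _ G _ _ _ U Q _ χ hχ hQ ⟨σ, hσ, hσ1⟩ E hE hco hB
  exact sht hχ hQ hσ hσ1 hE hco hB

end Pool.Agent.L7h22.SG
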