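import Pool.Agent.L7h22.SG.Sht
import Pool.Agent.L7h22.SG.Sho

/-! # Project SG: the transfer (TRF) -/

set_option autoImplicit false

namespace Pool.Agent.L7h22.SG

open Pool.Agent.L7h48.SG

variable {p : ℕ} [Fact p.Prime] {G : Type} [Group G] [TopologicalSpace G]

theorem trf [IsTopologicalGroup G] {U Q : Subgroup G}
    {χ : G → ZMod p} (hχ : χ ∈ HP p U) (hQ : IsKer p U Q χ) {σ : G} (hσ : σ ∈ U) (hσ1 : χ σ = 1)
    {e : G → G → ZMod p} (he : IsZ p U e) {ψ : G → ZMod p} (hψ : ψ ∈ HP p U)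
    {x : G → ZMod p → ZMod p} (hx : IsX p U χ x)
    (hB : IsB p Q (fun g h => e g h - ψ g * x h 0)) : IsB p U (fun g h => ψ g * ∑ t, x h t) := by
  set E : G → G → ZMod p → ZMod p := fun g h t => e g h - ψ g * x h (t + χ g) with hEd
  have hE : IsLocallyConstant (fun v : G × G => E v.1 v.2) := by
    refine lc_pi fun t => ?_
    have h1 : IsLocallyConstant (fun v : G × G => e v.1 v.2) := he.1
    have h2 : IsLocallyConstant (fun v : G × G => ψ v.1) := hψ.1.comp_continuous continuous_fst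
    have h3 : IsLocallyConstant (fun v : G × G => χ v.1) := hχ.1.comp_continuous continuous_fst
    have h4 : IsLocallyConstant (fun v : G × G => x v.2) := hx.1.comp_continuous continuous_snd
    have h5 : IsLocallyConstant (fun v : G × G => x v.2 (t + χ v.1)) :=
      (h4.prodMk h3).comp (fun q : (ZMod p → ZMod p) × ZMod p => q.1 (t + q.2))
    exact h1.sub (h2.mul h5)
  have hco : ∀ a ∈ U, ∀ b ∈ U, ∀ c ∈ U, ∀ t,
      E b c (t + χ a) - E (a * b) c t + E a (b * c) t - E a b t = 0 := by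
    intro a ha b hb c hc t
    have h1 := he.2 a ha b hb c hc
    simp only [hEd]
    rw [HP.mul hχ ha hb, HP.mul hψ ha hb, IsX.mul hx hb hc, ← add_assoc]
    linear_combination h1
  have hB' : IsB p Q (fun g h => E g h 0) := by
    obtain ⟨a, ha, hab⟩ := hB
    refine ⟨a, ha, fun g hg h hh => ?_⟩
    rw [← hab g hg h hh]
    simp only [hEd]
    rw [((hQ g).1 hg).2, add_zero]
  obtain ⟨F, hF, hFE⟩ := sht hχ hQ hσ hσ1 hE hco hB'
  refine ⟨fun g => -∑ t, F g t, (hF.comp fun f => -∑ t, f t), fun g hg h hh => ?_⟩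
  have h1 : ∑ t, E g h t = ∑ t, F g t + ∑ t, F h (t + χ g) - ∑ t, F (g * h) t := by
    rw [← Finset.sum_add_distrib, ← Finset.sum_sub_distrib]
    exact Finset.sum_congr rfl fun t _ => hFE g hg h hh t
  have h2 : ∑ t, F h (t + χ g) = ∑ t, F h t :=
    Equiv.sum_comp (Equiv.addRight (χ g)) (fun t => F h t)
  have h3 : ∑ t, E g h t = -(ψ g * ∑ t, x h t) := by
    simp only [hEd]
    rw [Finset.sum_sub_distrib, Finset.sum_const, Finset.card_univ, ZMod.card, nsmul_eq_mul,
      CharP.cast_eq_zero, zero_mul, zero_sub, ← Finset.mul_sum]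
    congr 2
    exact Equiv.sum_comp (Equiv.addRight (χ g)) (fun t => x h t)
  rw [h2, h3] at h1
  beta_reduce
  linear_combination -h1

/-- **[TRF]** -/
theorem s_TRF : S_TRF := by
  intro p _ G _ _ _ U Q _ χ hχ hQ ⟨σ, hσ, hσ1⟩ e he ψ hψ x hx hB
  exact trf hχ hQ hσ hσ1 he hψ hx hB

end Pool.Agent.L7h22.SG
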